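import Mathlib

/-!
# Theorem E11: weights, roots and the counting lemma (statements)
-/

open scoped InnerProductSpace

namespace Pool.Agent.Lib.MP_361a6f_ag.FL.E11

variable {E : Type*} [NormedAddCommGroup E] [InnerProductSpace ℝ E] {I : Type*}

/-- The letters `l` have weights `T l` in a Euclidean space, `Φ` is the set of the roots. -/
structure RootSit (T : I → E) (Φ : Set E) (τ : I → I) : Prop where
  zero : (0 : E) ∉ Φ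
  neg : ∀ a ∈ Φ, -a ∈ Φ
  int : ∀ l, ∀ a ∈ Φ, ∃ n : ℤ, 2 * ⟪T l, a⟫_ℝ = n * ⟪a, a⟫_ℝ
  dif : ∀ a ∈ Φ, ∃ i j, a = T i - T j
  add : ∀ a ∈ Φ, ∀ b ∈ Φ, ⟪a, b⟫_ℝ < 0 → a + b ∈ Φ ∨ a + b = 0
  mov : ∀ l, ∀ a ∈ Φ, 0 < ⟪T l, a⟫_ℝ → ∃ m, T m = T l - a
  tau : ∀ l, T (τ l) = -T l
  tau_ne : ∀ l, τ l ≠ l
  two : ∀ l, T l + T l ∈ AddSubgroup.closure Φ
  par : ∀ l, ∀ b ∈ Φ, ∀ c ∈ Φ, ⟪b, c⟫_ℝ = 0 → T l + T l = b + c → T l + T l ∉ Φ →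
    8 ≤ Nat.card {m // T m - T l ∈ AddSubgroup.closure Φ}

/-- L2 (30's and 4's `exists_root`). -/
def L2Statement.{u} : Prop :=
  ∀ {E : Type u} [NormedAddCommGroup E] [InnerProductSpace ℝ E] (Φ : Set E), (0 : E) ∉ Φ →
    (∀ a ∈ Φ, -a ∈ Φ) → (∀ a ∈ Φ, ∀ b ∈ Φ, ⟪a, b⟫_ℝ < 0 → a + b ∈ Φ ∨ a + b = 0) →
    ∀ μ ∈ AddSubgroup.closure Φ, μ ≠ 0 → ∃ a ∈ Φ, ⟪a, a⟫_ℝ < 2 * ⟪μ, a⟫_ℝ

/-- STEP 1: among the tuples with the same classes and sum `0` there is one with all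
`|n(l a, x)| ≤ 1`. -/
def Step1Statement.{u, v} : Prop :=
  ∀ {E : Type u} [NormedAddCommGroup E] [InnerProductSpace ℝ E] {I : Type v} [Finite I]
    {T : I → E} {Φ : Set E} {τ : I → I}, RootSit T Φ τ → ∀ {L : ℕ} (l : Fin L → I),
    ∑ a, T (l a) = 0 → ∃ l' : Fin L → I, ∑ a, T (l' a) = 0 ∧
      (∀ a, T (l' a) - T (l a) ∈ AddSubgroup.closure Φ) ∧
      ∀ a, ∀ x ∈ Φ, |2 * ⟪T (l' a), x⟫_ℝ| ≤ ⟪x, x⟫_ℝ

/-- STEP 2: a minimal weight in a class with less than `8` letters is `0` or half a root. -/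
def Step2Statement.{u, v} : Prop :=
  ∀ {E : Type u} [NormedAddCommGroup E] [InnerProductSpace ℝ E] {I : Type v} [Finite I]
    {T : I → E} {Φ : Set E} {τ : I → I}, RootSit T Φ τ → ∀ l,
    (∀ x ∈ Φ, |2 * ⟪T l, x⟫_ℝ| ≤ ⟪x, x⟫_ℝ) →
    Nat.card {m // T m - T l ∈ AddSubgroup.closure Φ} < 8 → T l = 0 ∨ T l + T l ∈ Φ

/-- STEP 3 + 4 (with STEP 1 and STEP 2 as input): the counting lemma. -/
def Lemma11Statement.{u, v} : Prop :=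
  ∀ {E : Type u} [NormedAddCommGroup E] [InnerProductSpace ℝ E] {I : Type v} [Finite I]
    {T : I → E} {Φ : Set E} {τ : I → I}, RootSit T Φ τ → ∀ {L : ℕ} (l : Fin L → I), 6 ≤ L →
    ∑ a, T (l a) = 0 →
    (∀ a b, a ≠ b → T (l a) - T (l b) ∉ AddSubgroup.closure Φ) → 24 ≤ Nat.card I

end Pool.Agent.Lib.MP_361a6f_ag.FL.E11
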