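import Pool.Agent.Lib.MP_361a6f_ag.FL.E5.R4

/-!
# Theorem E11, the hook (helper43): the statements (file DefsN)

`LemNStatement` is the counting lemma in the frame of `FL/E/LemR.lean`, `R11Statement` is row R4 for
less than `24` letters.
-/

set_option autoImplicit false

open Matrix

namespace Pool.Agent.Lib.MP_361a6f_ag.FL.E

open LemR

/-- LEMMA N (82: Lemma 11) in the frame: letters of a word of weight zero in at least six different
classes exist only for at least `24` letters. -/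
def LemNStatement : Prop :=
  ∀ {I : Type} [Fintype I] [DecidableEq I] (S : Submodule ℂ (Matrix I I ℂ)) (κ : I → ℂ)
    (P : Matrix I I ℂ), Sit S κ → P.transpose = -P → IsUnit P →
    (∀ A ∈ S, A.transpose * P + P * A = 0) →
    (∀ i, ∃ a b, Conn S κ i a ∧ Conn S κ i b ∧ (∀ T, diagonal T ∈ S → T a + T b = 0)) →
    (∀ i j, (∀ T, diagonal T ∈ S → T i = T j) → κ i = κ j) →
    ∀ {L : ℕ} (l : Fin L → I), 6 ≤ L → (∀ T, diagonal T ∈ S → ∑ j, T (l j) = 0) →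
    (∀ x y, x ≠ y → ¬ Conn S κ (l x) (l y)) → 24 ≤ Fintype.card I

/-- Row R11: row R4 for less than `24` letters. -/
def R11Statement : Prop :=
  ∀ {I : Type} [Fintype I] [DecidableEq I] (S : Submodule ℂ (Matrix I I ℂ))
    (E : Set (Matrix I I ℂ)) (P : Matrix I I ℂ),
    (∀ x ∈ S, ∀ y ∈ S, x * y - y * x ∈ S) → (∀ x ∈ S, x.conjTranspose ∈ S) →
    (∀ e ∈ E, ∀ A ∈ S, e * A = A * e) → (∀ A ∈ S, A.transpose * P + P * A = 0) → IsUnit P →
    P.transpose = -P →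
    ∀ a : I → ℂ, (∀ i, (starRingEnd ℂ) (a i) = a i) → Matrix.diagonal a ∈ S →
    ∀ k : I → ℂ, (∀ i j, a i = a j → k i = k j) →
    ∀ (τ : I → I) (G : ℤˣ → List I → Prop), (∀ i, τ (τ i) = i) → (∀ i, a (τ i) = -a i) →
    Calc τ a G → (∀ ε v, G ε v → Even v.length) →
    (∀ A ∈ S, ∀ i0 j0, mvR τ G i0 j0 A ∈ S) →
    (∀ U : Submodule ℂ (I → ℂ), (∀ A ∈ S, ∀ v ∈ U, A.mulVec v ∈ U) →
      (∀ e ∈ E, ∀ v ∈ U, e.mulVec v ∈ U) →
      (∀ v ∈ U, ∀ w ∈ U, dotProduct v (P.mulVec w) = 0) → U = ⊥) →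
    Fintype.card I < 24 →
    ∀ (L : ℕ) (u : Ten I L), (∀ A ∈ S, aT A u = 0) →
      (∀ w, u w ≠ 0 → ∃ ε : ℤˣ, G ε (List.ofFn w) ∧ ∏ j, k (w j) = (((ε : ℤ) : ℝ) : ℂ)) →
      gT (Matrix.diagonal k) u = u

end Pool.Agent.Lib.MP_361a6f_ag.FL.E
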