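import Pool.Agent.Lib.MP_361a6f_ag.FL.E5.DefsX
import Pool.Agent.Lib.MP_361a6f_ag.FL.E11.DefsN

/-!
# Theorem E11 in coordinates: the statement and the assembly row
-/

open Filter Topology

namespace Pool.Agent.Lib.MP_361a6f_ag.FL.E

/-- THEOREM E11 in coordinates: as Theorem K4, and without any condition on the parities if there
are less than `24` letters. -/
def Thm11Statement : Prop :=
  ∀ {I Λ : Type} [Fintype I] [DecidableEq I] [DecidableEq Λ] (D : Dat I Λ)
    (At Bt : (L : ℕ) → Ten I L → Prop) (l : I → ℂ) (Γ : Set (Matrix I I ℂ))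
    {β : Type} [Fintype β] (lb : β → ℕ) (b : Tup I lb), CSys D At Bt l Γ lb b → FData D Bt l →
    (∀ U : Submodule ℂ (I → ℂ), StabU D At Γ U →
      (∀ v ∈ U, ∀ w ∈ U, dotProduct v ((Psi D).mulVec w) = 0) → U = ⊥) →
    ∀ L : ℕ, (KCond4 D At Γ L ∨ Fintype.card I < 24) →
      ∀ u : Ten I L, u ∈ Submodule.span ℝ {u | At L u} → u ≠ 0 →
      ∃ r : ℝ, 0 < r ∧ psiT D u u = (r : ℂ)

/-- Row W11: the assembly. -/
def W11Statement : Prop :=
  W1XStatement → W2Statement → R4Statement → R11Statement → P2Statement → P3Statement →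
    G4Statement → G4bStatement → Thm11Statement

end Pool.Agent.Lib.MP_361a6f_ag.FL.E
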