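import Pool.Agent.Lib.MP_361a6f_ag.FL.E11.Defs

/-!
# Theorem EM: the counting lemma inside one piece (helper56, finding 5463)
-/

open scoped InnerProductSpace

namespace Pool.Agent.Lib.MP_361a6f_ag.FL.E11

section defs

variable {E : Type*} [NormedAddCommGroup E] [InnerProductSpace ℝ E] {I : Type*}

/-- Weights and roots. -/
structure RootSit0 (T : I → E) (Φ : Set E) : Prop where
  zero : (0 : E) ∉ Φ
  neg : ∀ a ∈ Φ, -a ∈ Φ
  int : ∀ l, ∀ a ∈ Φ, ∃ n : ℤ, 2 * ⟪T l, a⟫_ℝ = n * ⟪a, a⟫_ℝ
  dif : ∀ a ∈ Φ, ∃ i j, a = T i - T j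
  add : ∀ a ∈ Φ, ∀ b ∈ Φ, ⟪a, b⟫_ℝ < 0 → a + b ∈ Φ ∨ a + b = 0
  mov : ∀ l, ∀ a ∈ Φ, 0 < ⟪T l, a⟫_ℝ → ∃ m, T m = T l - a
  two : ∀ l, T l + T l ∈ AddSubgroup.closure Φ

theorem RootSit.toRootSit0 {T : I → E} {Φ : Set E} {τ : I → I} (h : RootSit T Φ τ) :
    RootSit0 T Φ :=
  ⟨h.zero, h.neg, h.int, h.dif, h.add, h.mov, h.two⟩

/-- `W l` is the set of the weights of the piece of the letter `l`, `pd l` its dimension. -/
structure PieceSit (T : I → E) (Φ : Set E) (W : I → Set E) (pd : I → ℕ) : Prop where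
  self : ∀ l, T l ∈ W l
  neg : ∀ l, ∀ v ∈ W l, -v ∈ W l
  mov : ∀ l, ∀ v ∈ W l, ∀ a ∈ Φ, 0 < ⟪v, a⟫_ℝ → v - a ∈ W l
  card : ∀ l, ∀ F : Finset E, (∀ v ∈ F, v ∈ W l) → F.card ≤ pd l
  par : ∀ l, ∀ b ∈ Φ, ∀ c ∈ Φ, ⟪b, c⟫_ℝ = 0 → T l + T l = b + c → T l + T l ∉ Φ → 8 ≤ pd l

end defs

/-- The counting lemma: in a word of weight zero with at least six letters in different classes,
after moves, two pieces have dimension at least `8` or one has dimension at least `16`. -/
def LemmaEMStatement.{u, v} : Prop :=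
  ∀ {E : Type u} [NormedAddCommGroup E] [InnerProductSpace ℝ E] {I : Type v} [Finite I]
    {T : I → E} {Φ : Set E} {W : I → Set E} {pd : I → ℕ}, RootSit0 T Φ → PieceSit T Φ W pd →
    ∀ {L : ℕ} (l : Fin L → I), 6 ≤ L → ∑ a, T (l a) = 0 →
    (∀ a b, a ≠ b → T (l a) - T (l b) ∉ AddSubgroup.closure Φ) →
    ∃ l' : Fin L → I, ∑ a, T (l' a) = 0 ∧
      (∀ a, T (l' a) - T (l a) ∈ AddSubgroup.closure Φ) ∧
      ((∃ a b, a ≠ b ∧ 8 ≤ pd (l' a) ∧ 8 ≤ pd (l' b)) ∨ ∃ a, 16 ≤ pd (l' a))

namespace EM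

section one

variable {E : Type*} [NormedAddCommGroup E] [InnerProductSpace ℝ E] {I : Type*}

/-- STEP 1. -/
theorem step1 [Finite I] {T : I → E} {Φ : Set E} (h : RootSit0 T Φ) {L : ℕ} (l : Fin L → I)
    (hl : ∑ a, T (l a) = 0) : ∃ l' : Fin L → I, ∑ a, T (l' a) = 0 ∧
      (∀ a, T (l' a) - T (l a) ∈ AddSubgroup.closure Φ) ∧
      ∀ a, ∀ x ∈ Φ, |2 * ⟪T (l' a), x⟫_ℝ| ≤ ⟪x, x⟫_ℝ := by
  let P : (Fin L → I) → Prop := fun l' => ∑ a, T (l' a) = 0 ∧
    ∀ a, T (l' a) - T (l a) ∈ AddSubgroup.closure Φ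
  have hne : Nonempty {l' : Fin L → I // P l'} :=
    ⟨⟨l, hl, fun a => by rw [sub_self]; exact AddSubgroup.zero_mem _⟩⟩
  obtain ⟨⟨l', hs, hc⟩, hmin⟩ := Finite.exists_min
    (fun l' : {l' : Fin L → I // P l'} => ∑ a, ⟪T (l'.1 a), T (l'.1 a)⟫_ℝ)
  refine ⟨l', hs, hc, ?_⟩
  have key : ∀ a, ∀ x ∈ Φ, 2 * ⟪T (l' a), x⟫_ℝ ≤ ⟪x, x⟫_ℝ := by
    intro a x hx
    by_contra hlt
    push Not at hlt
    have hx0 : x ≠ 0 := fun h0 => h.zero (h0 ▸ hx)
    have hxx : 0 < ⟪x, x⟫_ℝ := real_inner_self_pos.2 hx0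
    obtain ⟨n, hn⟩ := h.int (l' a) x hx
    have hn2 : (2 : ℝ) ≤ n := by
      have h1 : (1 : ℝ) < n := by
        by_contra hc'
        push Not at hc'
        nlinarith
      have h2 : (1 : ℤ) < n := by exact_mod_cast h1
      have h3 : (2 : ℤ) ≤ n := by omega
      exact_mod_cast h3
    have hsum : ∑ c, ⟪T (l' c), x⟫_ℝ = 0 := by
      rw [← sum_inner, hs, inner_zero_left]
    obtain ⟨b, hb⟩ : ∃ b, ⟪T (l' b), x⟫_ℝ < 0 := by
      by_contra hno
      push Not at hno
      have h0 := (Finset.sum_eq_zero_iff_of_nonneg (fun c _ => hno c)).1 hsum a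
        (Finset.mem_univ a)
      rw [h0] at hlt
      linarith
    have hab : a ≠ b := by
      rintro rfl
      linarith
    obtain ⟨m, hm⟩ := h.mov (l' a) x hx (by linarith)
    obtain ⟨m', hm'⟩ := h.mov (l' b) (-x) (h.neg x hx) (by rw [inner_neg_right]; linarith)
    obtain ⟨k, hk⟩ := h.int (l' b) x hx
    have hk1 : (k : ℝ) ≤ -1 := by
      have h1 : (k : ℝ) < 0 := by
        by_contra hc'
        push Not at hc'
        nlinarith
      have h2 : k < (0 : ℤ) := by exact_mod_cast h1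
      have h3 : k ≤ (-1 : ℤ) := by omega
      exact_mod_cast h3
    let l2 : Fin L → I := Function.update (Function.update l' a m) b m'
    have hT : ∀ c, T (l2 c) = T (l' c) + ((if c = a then -x else 0) + if c = b then x else 0) := by
      intro c
      by_cases hcb : c = b
      · subst hcb
        have h1 : l2 c = m' := Function.update_self _ _ _
        rw [h1, hm', if_neg (Ne.symm hab), if_pos rfl, zero_add, sub_neg_eq_add]
      · by_cases hca : c = a
        · subst hca
          have h1 : l2 c = m := by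
            show Function.update (Function.update l' c m) b m' c = m
            rw [Function.update_of_ne hcb, Function.update_self]
          rw [h1, hm, if_pos rfl, if_neg hcb, add_zero, sub_eq_add_neg]
        · have h1 : l2 c = l' c := by
            show Function.update (Function.update l' a m) b m' c = l' c
            rw [Function.update_of_ne hcb, Function.update_of_ne hca]
          rw [h1, if_neg hca, if_neg hcb, add_zero, add_zero]
    have hxQ : x ∈ AddSubgroup.closure Φ := AddSubgroup.subset_closure hx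
    have hP : P l2 := by
      constructor
      · have e1 : ∑ c, T (l2 c) = ∑ c, (T (l' c) +
            ((if c = a then -x else 0) + if c = b then x else 0)) :=
          Finset.sum_congr rfl fun c _ => hT c
        rw [e1, Finset.sum_add_distrib, Finset.sum_add_distrib, hs,
          Finset.sum_ite_eq' Finset.univ a (fun _ => -x),
          Finset.sum_ite_eq' Finset.univ b (fun _ => x), if_pos (Finset.mem_univ a),
          if_pos (Finset.mem_univ b), zero_add, neg_add_cancel]
      · intro c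
        rw [hT c, add_sub_right_comm]
        refine AddSubgroup.add_mem _ (hc c) (AddSubgroup.add_mem _ ?_ ?_)
        · split_ifs
          · exact AddSubgroup.neg_mem _ hxQ
          · exact AddSubgroup.zero_mem _
        · split_ifs
          · exact hxQ
          · exact AddSubgroup.zero_mem _
    have hle := hmin ⟨l2, hP⟩
    simp only at hle
    have hN : ∀ c, ⟪T (l2 c), T (l2 c)⟫_ℝ = ⟪T (l' c), T (l' c)⟫_ℝ +
        ((if c = a then -(2 * ⟪T (l' a), x⟫_ℝ) + ⟪x, x⟫_ℝ else 0) +
          if c = b then 2 * ⟪T (l' b), x⟫_ℝ + ⟪x, x⟫_ℝ else 0) := by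
      intro c
      rw [hT c]
      by_cases hcb : c = b
      · subst hcb
        rw [if_neg (Ne.symm hab), if_pos rfl, if_neg (Ne.symm hab), if_pos rfl, zero_add,
          zero_add, real_inner_add_add_self]
        ring
      · by_cases hca : c = a
        · subst hca
          rw [if_pos rfl, if_neg hcb, if_pos rfl, if_neg hcb, add_zero, add_zero,
            real_inner_add_add_self, inner_neg_right, inner_neg_neg]
          ring
        · rw [if_neg hca, if_neg hcb, if_neg hca, if_neg hcb, add_zero, add_zero, add_zero,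
            add_zero]
    have e2 : ∑ c, ⟪T (l2 c), T (l2 c)⟫_ℝ = ∑ c, ⟪T (l' c), T (l' c)⟫_ℝ +
        ((-(2 * ⟪T (l' a), x⟫_ℝ) + ⟪x, x⟫_ℝ) + (2 * ⟪T (l' b), x⟫_ℝ + ⟪x, x⟫_ℝ)) := by
      rw [Finset.sum_congr rfl fun c _ => hN c, Finset.sum_add_distrib, Finset.sum_add_distrib,
        Finset.sum_ite_eq' Finset.univ a (fun _ => -(2 * ⟪T (l' a), x⟫_ℝ) + ⟪x, x⟫_ℝ),
        Finset.sum_ite_eq' Finset.univ b (fun _ => 2 * ⟪T (l' b), x⟫_ℝ + ⟪x, x⟫_ℝ),
        if_pos (Finset.mem_univ a), if_pos (Finset.mem_univ b)]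
    rw [e2, hn, hk] at hle
    nlinarith
  intro a x hx
  rw [abs_le]
  constructor
  · have h1 := key a (-x) (h.neg x hx)
    rw [inner_neg_right, inner_neg_neg] at h1
    linarith
  · exact key a x hx

/-- STEP 2, inside the piece. -/
theorem step2 {T : I → E} {Φ : Set E} (h : RootSit0 T Φ) {W : I → Set E} {pd : I → ℕ}
    (hW : PieceSit T Φ W pd)
    (hL2 : ∀ μ ∈ AddSubgroup.closure Φ, μ ≠ 0 → ∃ a ∈ Φ, ⟪a, a⟫_ℝ < 2 * ⟪μ, a⟫_ℝ) {l : I}
    (hl : ∀ x ∈ Φ, 2 * ⟪T l, x⟫_ℝ ≤ ⟪x, x⟫_ℝ) (h8 : pd l < 8) : T l = 0 ∨ T l + T l ∈ Φ := by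
  classical
  have hpos : ∀ {a : E}, a ∈ Φ → 0 < ⟪a, a⟫_ℝ := fun {a} ha =>
    real_inner_self_pos.2 fun h' => h.zero (h' ▸ ha)
  by_contra hcon
  push Not at hcon
  obtain ⟨hT0, hTr⟩ := hcon
  have h20 : T l + T l ≠ 0 := by
    intro h'
    apply hT0
    have h1 : (2 : ℝ) • T l = 0 := by rw [two_smul]; exact h'
    exact (smul_eq_zero.1 h1).resolve_left two_ne_zero
  obtain ⟨b, hb, hb1⟩ := hL2 _ (h.two l) h20
  rw [inner_add_left] at hb1
  have hbb := hpos hb
  have hTb : 2 * ⟪T l, b⟫_ℝ = ⟪b, b⟫_ℝ := by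
    obtain ⟨n, hn⟩ := h.int l b hb
    have h1 := hl b hb
    have h2 : (1 : ℤ) ≤ n := by
      by_contra h'
      push Not at h'
      have h3 : n ≤ 0 := by omega
      have h4 : (n : ℝ) ≤ 0 := by exact_mod_cast h3
      nlinarith
    have h3 : (1 : ℝ) ≤ n := by exact_mod_cast h2
    nlinarith
  have h2b : T l + T l - b ∈ AddSubgroup.closure Φ :=
    sub_mem (h.two l) (AddSubgroup.subset_closure hb)
  have h2b0 : T l + T l - b ≠ 0 := by
    intro h'
    apply hTr
    rw [sub_eq_zero.1 h']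
    exact hb
  obtain ⟨c, hc, hc1⟩ := hL2 _ h2b h2b0
  rw [inner_sub_left, inner_add_left] at hc1
  have hcc := hpos hc
  obtain ⟨n, hn⟩ := h.int l c hc
  obtain ⟨p, hp⟩ : ∃ p : ℤ, 2 * ⟪b, c⟫_ℝ = p * ⟪c, c⟫_ℝ := by
    obtain ⟨i, j, hij⟩ := h.dif b hb
    obtain ⟨ni, hi⟩ := h.int i c hc
    obtain ⟨nj, hj⟩ := h.int j c hc
    refine ⟨ni - nj, ?_⟩
    rw [hij, inner_sub_left]
    push_cast
    linarith
  have hn1 : n ≤ 1 := by
    have h1 := hl c hc
    by_contra h'
    push Not at h'
    have h3 : (2 : ℝ) ≤ n := by exact_mod_cast h'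
    nlinarith
  have hnp : p ≤ 2 * n - 2 := by
    by_contra h'
    push Not at h'
    have h2 : 2 * n - 1 ≤ p := by omega
    have h3 : 2 * (n : ℝ) - 1 ≤ p := by exact_mod_cast h2
    nlinarith
  -- the two roots are orthogonal
  have hp0 : p = 0 := by
    by_contra h'
    have hpneg : p ≤ -1 := by omega
    have h1 : ⟪b, c⟫_ℝ < 0 := by
      have h3 : (p : ℝ) ≤ -1 := by exact_mod_cast hpneg
      nlinarith
    have h2 : p + 2 ≤ n := by omega
    have h3 : (p : ℝ) + 2 ≤ n := by exact_mod_cast h2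
    have h4 : ⟪b + c, b + c⟫_ℝ < 2 * ⟪T l, b + c⟫_ℝ := by
      rw [inner_add_left, inner_add_right, inner_add_right, inner_add_right,
        real_inner_comm b c]
      nlinarith
    rcases h.add b hb c hc h1 with h5 | h5
    · exact absurd (hl _ h5) (not_le.2 h4)
    · rw [h5, inner_zero_left, inner_zero_right] at h4
      linarith
  have hn' : n = 1 := by omega
  rw [hn'] at hn
  rw [hp0] at hp
  have hbc : ⟪b, c⟫_ℝ = 0 := by
    have : (((0 : ℤ) : ℝ)) * ⟪c, c⟫_ℝ = 0 := by simp
    linarith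
  have hTc : 2 * ⟪T l, c⟫_ℝ = ⟪c, c⟫_ℝ := by
    rw [hn]; simp
  by_cases h2T : T l + T l = b + c
  · exact absurd (hW.par l b hb c hc hbc h2T hTr) (not_le.2 h8)
  · -- eight weights
    have w1 : T l - b ∈ W l := hW.mov l _ (hW.self l) b hb (by linarith)
    have w2 : T l - c ∈ W l := hW.mov l _ (hW.self l) c hc (by linarith)
    have w3 : T l - b - c ∈ W l :=
      hW.mov l _ w1 c hc (by rw [inner_sub_left, hbc]; linarith)
    let e : Bool → ℝ := fun s => if s then 1 else 0
    let s : Bool → ℝ := fun s => if s then -1 else 1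
    let g : Bool × Bool × Bool → E := fun q => s q.1 • (T l - e q.2.1 • b - e q.2.2 • c)
    have hg : ∀ q, g q = s q.1 • (T l - e q.2.1 • b - e q.2.2 • c) := fun q => rfl
    have hgW : ∀ q, g q ∈ W l := by
      rintro ⟨x, y, z⟩
      have h1 : T l - e y • b - e z • c ∈ W l := by
        cases y <;> cases z <;>
          simp only [e, if_true, if_false, Bool.false_eq_true, zero_smul, one_smul, sub_zero]
        · exact hW.self l
        · exact w2
        · exact w1
        · exact w3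
      cases x
      · simpa only [g, s, if_false, Bool.false_eq_true, one_smul] using h1
      · simpa only [g, s, if_true, neg_smul, one_smul] using hW.neg l _ h1
    have hgb : ∀ q, 2 * ⟪g q, b⟫_ℝ = s q.1 * (1 - 2 * e q.2.1) * ⟪b, b⟫_ℝ := by
      intro q
      rw [hg, inner_smul_left, inner_sub_left, inner_sub_left, inner_smul_left, inner_smul_left,
        real_inner_comm b c, hbc]
      simp only [conj_trivial]
      linear_combination s q.1 * hTb
    have hgc : ∀ q, 2 * ⟪g q, c⟫_ℝ = s q.1 * (1 - 2 * e q.2.2) * ⟪c, c⟫_ℝ := by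
      intro q
      rw [hg, inner_smul_left, inner_sub_left, inner_sub_left, inner_smul_left, inner_smul_left,
        hbc]
      simp only [conj_trivial]
      linear_combination s q.1 * hTc
    have hinj : Function.Injective g := by
      intro q r hqr
      have h1 : s q.1 * (1 - 2 * e q.2.1) = s r.1 * (1 - 2 * e r.2.1) := by
        have h2 := hgb q
        rw [hqr, hgb r] at h2
        exact (mul_right_cancel₀ hbb.ne' h2).symm
      have h2 : s q.1 * (1 - 2 * e q.2.2) = s r.1 * (1 - 2 * e r.2.2) := by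
        have h2 := hgc q
        rw [hqr, hgc r] at h2
        exact (mul_right_cancel₀ hcc.ne' h2).symm
      have h3 : s q.1 • (T l - e q.2.1 • b - e q.2.2 • c) =
          s r.1 • (T l - e r.2.1 • b - e r.2.2 • c) := by
        rw [← hg, ← hg, hqr]
      obtain ⟨x, y, z⟩ := q
      obtain ⟨x', y', z'⟩ := r
      by_cases hx : x = x'
      · subst hx
        have hs : s x ≠ 0 := by cases x <;> simp [s]
        have h4 : y = y' := by
          cases y <;> cases y' <;> first | rfl | (exfalso; cases x <;> norm_num [s, e] at h1)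
        have h5 : z = z' := by
          cases z <;> cases z' <;> first | rfl | (exfalso; cases x <;> norm_num [s, e] at h2)
        rw [h4, h5]
      · exfalso
        apply h2T
        have hy : y ≠ y' := by
          intro h4
          subst h4
          cases x <;> cases x' <;> first | exact hx rfl | (cases y <;> norm_num [s, e] at h1)
        have hz : z ≠ z' := by
          intro h4
          subst h4
          cases x <;> cases x' <;> first | exact hx rfl | (cases z <;> norm_num [s, e] at h2)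
        cases x <;> cases x' <;> first | exact absurd rfl hx | skip
        · cases y <;> cases y' <;> first | exact absurd rfl hy | skip
          all_goals cases z <;> cases z' <;> first | exact absurd rfl hz | skip
          all_goals
            simp only [s, e, if_true, if_false, Bool.false_eq_true, one_smul, zero_smul,
              sub_zero] at h3
            rw [← sub_eq_zero] at h3 ⊢
            rw [← h3]
            module
        · cases y <;> cases y' <;> first | exact absurd rfl hy | skip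
          all_goals cases z <;> cases z' <;> first | exact absurd rfl hz | skip
          all_goals
            simp only [s, e, if_true, if_false, Bool.false_eq_true, one_smul, zero_smul,
              sub_zero] at h3
            rw [← sub_eq_zero] at h3 ⊢
            rw [← neg_eq_zero] at h3
            rw [← h3]
            module
    have h9 := hW.card l (Finset.univ.image g) (by
      intro v hv
      obtain ⟨q, -, rfl⟩ := Finset.mem_image.1 hv
      exact hgW q)
    rw [Finset.card_image_of_injective _ hinj, Finset.card_univ] at h9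
    have h10 : Fintype.card (Bool × Bool × Bool) = 8 := by simp
    omega

/-- STEP 3: two roots with both Cartan numbers in `{-1, 0, 1}` are orthogonal or `r = ± r'`. -/
theorem orth {r r' : E} (hr : r ≠ 0) (hr' : r' ≠ 0) {n n' : ℤ}
    (h : ⟪r, r'⟫_ℝ = n * ⟪r', r'⟫_ℝ) (h' : ⟪r, r'⟫_ℝ = n' * ⟪r, r⟫_ℝ)
    (b : |⟪r, r'⟫_ℝ| ≤ ⟪r', r'⟫_ℝ) (b' : |⟪r, r'⟫_ℝ| ≤ ⟪r, r⟫_ℝ) :
    ⟪r, r'⟫_ℝ = 0 ∨ r = r' ∨ r = -r' := by
  have p := real_inner_self_pos.2 hr
  have p' := real_inner_self_pos.2 hr'
  by_cases h0 : ⟪r, r'⟫_ℝ = 0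
  · exact Or.inl h0
  right
  have n0 : n ≠ 0 := by
    rintro rfl
    exact h0 (by rw [h]; simp)
  have n0' : n' ≠ 0 := by
    rintro rfl
    exact h0 (by rw [h']; simp)
  have one : ∀ k : ℤ, k ≠ 0 → (1 : ℝ) ≤ |(k : ℝ)| := by
    intro k hk
    have := Int.one_le_abs hk
    exact_mod_cast this
  have e1 : |⟪r, r'⟫_ℝ| = ⟪r', r'⟫_ℝ := by
    refine le_antisymm b ?_
    rw [h, abs_mul, abs_of_pos p']
    exact le_mul_of_one_le_left p'.le (one n n0)
  have e2 : |⟪r, r'⟫_ℝ| = ⟪r, r⟫_ℝ := by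
    refine le_antisymm b' ?_
    rw [h', abs_mul, abs_of_pos p]
    exact le_mul_of_one_le_left p.le (one n' n0')
  rcases abs_choice ⟪r, r'⟫_ℝ with hc | hc
  · left
    have : ⟪r - r', r - r'⟫_ℝ = 0 := by
      rw [inner_sub_left, inner_sub_right, inner_sub_right, real_inner_comm r r']
      linarith
    exact sub_eq_zero.1 (inner_self_eq_zero.1 this)
  · right
    have : ⟪r + r', r + r'⟫_ℝ = 0 := by
      rw [inner_add_left, inner_add_right, inner_add_right, real_inner_comm r r']
      linarith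
    exact eq_neg_of_add_eq_zero_left (inner_self_eq_zero.1 this)

end one

end EM

open EM in
/-- **The counting lemma inside the pieces.** -/
theorem lemmaEM.{u, v} (hL2 : L2Statement.{u}) : LemmaEMStatement.{u, v} := by
  classical
  intro E _ _ I _ T Φ W pd H hW L l₀ hL hsum₀ hdist₀
  obtain ⟨l, hsum, hcl, hmin⟩ := step1 H l₀ hsum₀
  refine ⟨l, hsum, hcl, ?_⟩
  set Q := AddSubgroup.closure Φ with hQ
  have hdist : ∀ a b, a ≠ b → T (l a) - T (l b) ∉ Q := by
    intro a b hab hm
    refine hdist₀ a b hab ?_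
    have : T (l₀ a) - T (l₀ b) = -(T (l a) - T (l₀ a)) + (T (l a) - T (l b))
        + (T (l b) - T (l₀ b)) := by abel
    rw [this]
    exact Q.add_mem (Q.add_mem (Q.neg_mem (hcl a)) hm) (hcl b)
  by_cases hbig : ∃ a b, a ≠ b ∧ 8 ≤ pd (l a) ∧ 8 ≤ pd (l b)
  · exact Or.inl hbig
  right
  push Not at hbig
  -- all pieces but one are small
  obtain ⟨z, hz⟩ : ∃ z, ∀ a, a ≠ z → pd (l a) < 8 := by
    by_cases hb : ∃ z, 8 ≤ pd (l z)
    · obtain ⟨z, hz⟩ := hb
      exact ⟨z, fun a ha => hbig z a (Ne.symm ha) hz⟩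
    · push Not at hb
      exact ⟨⟨0, by omega⟩, fun a _ => hb a⟩
  have hB : ∀ a, a ≠ z → T (l a) = 0 ∨ T (l a) + T (l a) ∈ Φ := fun a ha =>
    step2 H hW (hL2 Φ H.zero H.neg H.add) (fun x hx => (le_abs_self _).trans (hmin a x hx))
      (hz a ha)
  set N : Finset (Fin L) := Finset.univ.filter (fun a => a ≠ z ∧ T (l a) ≠ 0) with hN
  have hNmem : ∀ a, a ∈ N ↔ a ≠ z ∧ T (l a) ≠ 0 := fun a => by simp [hN]
  have hNcard : 4 ≤ N.card := by
    set Z : Finset (Fin L) := Finset.univ.filter (fun a => T (l a) = 0) with hZ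
    have hZ1 : Z.card ≤ 1 := by
      rw [Finset.card_le_one]
      intro a ha b hb
      by_contra hab
      rw [hZ, Finset.mem_filter] at ha hb
      refine hdist a b hab ?_
      rw [ha.2, hb.2, sub_self]
      exact Q.zero_mem
    have hsub : (Finset.univ : Finset (Fin L)) ⊆ insert z (Z ∪ N) := by
      intro a _
      by_cases h1 : a = z
      · simp [h1]
      · by_cases h2 : T (l a) = 0
        · simp [hZ, h2]
        · refine Finset.mem_insert_of_mem (Finset.mem_union_right _ ((hNmem a).2 ⟨h1, h2⟩))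
    have h1 := Finset.card_le_card hsub
    have h2 := Finset.card_insert_le z (Z ∪ N)
    have h3 := Finset.card_union_le Z N
    rw [Finset.card_univ, Fintype.card_fin] at h1
    omega
  set r : Fin L → E := fun a => T (l a) + T (l a) with hr
  have hrΦ : ∀ a ∈ N, r a ∈ Φ := by
    intro a ha
    have := (hNmem a).1 ha
    rcases hB a this.1 with h | h
    · exact absurd h this.2
    · exact h
  have hr0 : ∀ a ∈ N, r a ≠ 0 := by
    intro a ha h0
    exact H.zero (h0 ▸ hrΦ a ha)
  have horth : ∀ a ∈ N, ∀ b ∈ N, a ≠ b → ⟪r a, r b⟫_ℝ = 0 := by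
    intro a ha b hb hab
    obtain ⟨n, hn⟩ := H.int (l a) (r b) (hrΦ b hb)
    obtain ⟨n', hn'⟩ := H.int (l b) (r a) (hrΦ a ha)
    have e1 : 2 * ⟪T (l a), r b⟫_ℝ = ⟪r a, r b⟫_ℝ := by
      simp only [hr]
      rw [inner_add_left]
      ring
    have e2 : 2 * ⟪T (l b), r a⟫_ℝ = ⟪r a, r b⟫_ℝ := by
      rw [real_inner_comm (r b) (r a)]
      simp only [hr]
      rw [inner_add_left (T (l b)) (T (l b))]
      ring
    have m1 := hmin a (r b) (hrΦ b hb)
    have m2 := hmin b (r a) (hrΦ a ha)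
    rw [e1] at hn m1
    rw [e2] at hn' m2
    rcases orth (hr0 a ha) (hr0 b hb) hn hn' m1 m2 with h | h | h
    · exact h
    · exfalso
      refine hdist a b hab ?_
      have : (2 : ℝ) • (T (l a) - T (l b)) = 0 := by
        rw [two_smul]
        have h' : T (l a) + T (l a) = T (l b) + T (l b) := h
        have : T (l a) - T (l b) + (T (l a) - T (l b)) = T (l a) + T (l a) -
          (T (l b) + T (l b)) := by abel
        rw [this, h', sub_self]
      rw [(smul_eq_zero.1 this).resolve_left two_ne_zero]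
      exact Q.zero_mem
    · exfalso
      refine hdist a b hab ?_
      have h1 : (2 : ℝ) • (T (l a) + T (l b)) = 0 := by
        rw [two_smul]
        have h' : T (l a) + T (l a) = -(T (l b) + T (l b)) := h
        have : T (l a) + T (l b) + (T (l a) + T (l b)) = T (l a) + T (l a) +
          (T (l b) + T (l b)) := by abel
        rw [this, h', neg_add_cancel]
      have h2 := (smul_eq_zero.1 h1).resolve_left two_ne_zero
      have h3 : T (l a) - T (l b) = -(T (l b) + T (l b)) + (T (l a) + T (l b)) := by abel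
      rw [h3, h2, add_zero]
      exact Q.neg_mem (H.two _)
  -- the weight of `z`
  have hTz : T (l z) + T (l z) = -∑ a ∈ N, r a := by
    have h1 : ∑ a ∈ Finset.univ.erase z, T (l a) = ∑ a ∈ N, T (l a) := by
      symm
      refine Finset.sum_subset ?_ ?_
      · intro a ha
        exact Finset.mem_erase.2 ⟨((hNmem a).1 ha).1, Finset.mem_univ a⟩
      · intro a ha hna
        by_contra h0
        exact hna ((hNmem a).2 ⟨(Finset.mem_erase.1 ha).1, h0⟩)
    have h2 : T (l z) + ∑ a ∈ N, T (l a) = 0 := by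
      rw [← h1, Finset.add_sum_erase _ (fun a => T (l a)) (Finset.mem_univ z), hsum]
    have h3 : ∑ a ∈ N, r a = ∑ a ∈ N, T (l a) + ∑ a ∈ N, T (l a) := by
      rw [← Finset.sum_add_distrib]
    rw [h3, eq_neg_iff_add_eq_zero]
    have : T (l z) + T (l z) + (∑ a ∈ N, T (l a) + ∑ a ∈ N, T (l a)) =
      (T (l z) + ∑ a ∈ N, T (l a)) + (T (l z) + ∑ a ∈ N, T (l a)) := by abel
    rw [this, h2, add_zero]
  have hsumr : ∀ A ⊆ N, ∀ b ∈ N, ⟪∑ a ∈ A, r a, r b⟫_ℝ = if b ∈ A then ⟪r b, r b⟫_ℝ else 0 := by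
    intro A hA b hb
    rw [sum_inner]
    by_cases hbA : b ∈ A
    · rw [if_pos hbA]
      refine Finset.sum_eq_single_of_mem b hbA (fun a ha hab => horth a (hA ha) b hb hab)
    · rw [if_neg hbA]
      refine Finset.sum_eq_zero (fun a ha => horth a (hA ha) b hb ?_)
      rintro rfl
      exact hbA ha
  have hD : ∀ A ⊆ N, T (l z) + ∑ a ∈ A, r a ∈ W (l z) := by
    intro A
    induction A using Finset.induction_on with
    | empty =>
      intro _
      rw [Finset.sum_empty, add_zero]
      exact hW.self (l z)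
    | insert b A hb ih =>
      intro hA
      have hm := ih (fun a ha => hA (Finset.mem_insert_of_mem ha))
      have hbN : b ∈ N := hA (Finset.mem_insert_self b A)
      have hpos : 0 < ⟪T (l z) + ∑ a ∈ A, r a, -r b⟫_ℝ := by
        have h1 : ⟪T (l z) + T (l z), r b⟫_ℝ = -⟪r b, r b⟫_ℝ := by
          rw [hTz, inner_neg_left, hsumr N (Finset.Subset.refl _) b hbN, if_pos hbN]
        have h2 : ⟪∑ a ∈ A, r a, r b⟫_ℝ = 0 := by
          rw [hsumr A (fun a ha => hA (Finset.mem_insert_of_mem ha)) b hbN, if_neg hb]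
        rw [inner_neg_right, inner_add_left, h2]
        rw [inner_add_left] at h1
        have := real_inner_self_pos.2 (hr0 b hbN)
        linarith
      have h3 := hW.mov (l z) _ hm (-r b) (H.neg _ (hrΦ b hbN)) hpos
      rw [Finset.sum_insert hb]
      have h4 : T (l z) + (r b + ∑ a ∈ A, r a) = T (l z) + ∑ a ∈ A, r a - -r b := by abel
      rw [h4]
      exact h3
  have hinj : Set.InjOn (fun A => T (l z) + ∑ a ∈ A, r a) (N.powerset : Set (Finset (Fin L))) := by
    intro A hA B hB' hAB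
    rw [Finset.mem_coe, Finset.mem_powerset] at hA hB'
    have h1 : ∑ a ∈ A, r a = ∑ a ∈ B, r a := add_left_cancel hAB
    have key : ∀ b ∈ N, (b ∈ A ↔ b ∈ B) := by
      intro b hb
      have e1 := hsumr A hA b hb
      have e2 := hsumr B hB' b hb
      rw [h1, e2] at e1
      have p := (real_inner_self_pos.2 (hr0 b hb)).ne'
      by_cases c1 : b ∈ A <;> by_cases c2 : b ∈ B <;> simp_all
    ext b
    constructor
    · intro h; exact (key b (hA h)).1 h
    · intro h; exact (key b (hB' h)).2 h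
  refine ⟨z, ?_⟩
  have h1 := hW.card (l z) (N.powerset.image fun A => T (l z) + ∑ a ∈ A, r a) (by
    intro v hv
    obtain ⟨A, hA, rfl⟩ := Finset.mem_image.1 hv
    exact hD A (Finset.mem_powerset.1 hA))
  rw [Finset.card_image_of_injOn hinj, Finset.card_powerset] at h1
  calc 16 = 2 ^ 4 := by norm_num
    _ ≤ 2 ^ N.card := Nat.pow_le_pow_right (by norm_num) hNcard
    _ ≤ _ := h1

end Pool.Agent.Lib.MP_361a6f_ag.FL.E11
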