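import Pool.Agent.Lib.MP_361a6f_ag.FL.E11.Defs
import Pool.Agent.Lib.MP_361a6f_ag.FL.E.K1core

/-!
# Theorem E11: the weights of the letters in the Euclidean space of the real torus

`rt h` is the space of the real diagonal elements of `h`, the weight `wt h l` of the letter `l` is
the projection of the unit vector of `l`.
-/

set_option autoImplicit false
set_option linter.unusedSectionVars false

open Matrix
open scoped InnerProductSpace

namespace Pool.Agent.Lib.MP_361a6f_ag.FL.E11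

open E E.LemR

variable {I : Type} [Fintype I] [DecidableEq I]

/-- the real diagonal elements of `h` -/
def rt (h : Submodule ℂ (Matrix I I ℂ)) : Submodule ℝ (EuclideanSpace ℝ I) where
  carrier := {v | diagonal (fun i => ((v i : ℝ) : ℂ)) ∈ h}
  add_mem' := by
    intro v w hv hw
    have h1 := h.add_mem hv hw
    rw [Matrix.diagonal_add] at h1
    refine (congrArg (· ∈ h) ?_).mp h1
    congr 1
    funext i
    simp
  zero_mem' := by
    refine (congrArg (· ∈ h) ?_).mp h.zero_mem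
    rw [← Matrix.diagonal_zero]
    congr 1
  smul_mem' := by
    intro c v hv
    have h1 := h.smul_mem (c : ℂ) hv
    rw [← Matrix.diagonal_smul] at h1
    refine (congrArg (· ∈ h) ?_).mp h1
    congr 1
    funext i
    simp

/-- the weight of the letter `l` -/
noncomputable def wt (h : Submodule ℂ (Matrix I I ℂ)) (l : I) : rt h :=
  (rt h).orthogonalProjectionOnto (EuclideanSpace.single l 1)

variable {h : Submodule ℂ (Matrix I I ℂ)} {κ : I → ℂ}

theorem mem_rt (v : rt h) : diagonal (fun i => (((v : EuclideanSpace ℝ I) i : ℝ) : ℂ)) ∈ h := v.2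

theorem inner_wt (l : I) (v : rt h) : ⟪wt h l, v⟫_ℝ = (v : EuclideanSpace ℝ I) l := by
  rw [wt, Submodule.inner_orthogonalProjectionOnto_eq_of_mem_right, EuclideanSpace.inner_single_left]
  simp

theorem inner_eq (v w : rt h) :
    ⟪v, w⟫_ℝ = ∑ i, (v : EuclideanSpace ℝ I) i * (w : EuclideanSpace ℝ I) i := by
  rw [Submodule.coe_inner, PiLp.inner_apply]
  refine Finset.sum_congr rfl fun i _ => ?_
  simp [mul_comm]

/-- the value of a real weight at a diagonal element -/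
def ev (v : rt h) (T : I → ℂ) : ℂ := ∑ i, (((v : EuclideanSpace ℝ I) i : ℝ) : ℂ) * T i

theorem ev_add (v w : rt h) (T : I → ℂ) : ev (v + w) T = ev v T + ev w T := by
  rw [ev, ev, ev, ← Finset.sum_add_distrib]
  refine Finset.sum_congr rfl fun i _ => ?_
  simp [add_mul]

theorem ev_neg (v : rt h) (T : I → ℂ) : ev (-v) T = -ev v T := by
  rw [ev, ev, ← Finset.sum_neg_distrib]
  refine Finset.sum_congr rfl fun i _ => ?_
  simp

theorem ev_sub (v w : rt h) (T : I → ℂ) : ev (v - w) T = ev v T - ev w T := by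
  rw [sub_eq_add_neg, ev_add, ev_neg, sub_eq_add_neg]

theorem ev_zero (T : I → ℂ) : ev (0 : rt h) T = 0 := by
  rw [ev]
  exact Finset.sum_eq_zero fun i _ => by simp

theorem ev_real (v w : rt h) :
    ev v (fun i => (((w : EuclideanSpace ℝ I) i : ℝ) : ℂ)) = ((⟪v, w⟫_ℝ : ℝ) : ℂ) := by
  rw [ev, inner_eq]
  push_cast
  rfl

theorem ev_ext {v w : rt h} (H : ∀ T, diagonal T ∈ h → ev v T = ev w T) : v = w := by
  refine ext_inner_right ℝ fun u => ?_
  have h1 := H _ (mem_rt u)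
  rw [ev_real, ev_real] at h1
  exact_mod_cast h1

section star

variable (hS : Sit h κ)
include hS

theorem re_mem {T : I → ℂ} (hT : diagonal T ∈ h) :
    diagonal (fun i => ((T i).re : ℂ)) ∈ h := by
  have h1 := h.smul_mem (1 / 2 : ℂ) (h.add_mem hT (hS.star _ hT))
  refine (congrArg (· ∈ h) ?_).mp h1
  rw [Matrix.diagonal_conjTranspose, Matrix.diagonal_add, ← Matrix.diagonal_smul]
  congr 1
  funext i
  rw [Pi.smul_apply, smul_eq_mul, Pi.star_apply, Complex.star_def, Complex.add_conj]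
  push_cast
  ring

theorem im_mem {T : I → ℂ} (hT : diagonal T ∈ h) :
    diagonal (fun i => ((T i).im : ℂ)) ∈ h := by
  have h1 := h.smul_mem (-Complex.I / 2 : ℂ) (h.sub_mem hT (hS.star _ hT))
  refine (congrArg (· ∈ h) ?_).mp h1
  rw [Matrix.diagonal_conjTranspose, Matrix.diagonal_sub, ← Matrix.diagonal_smul]
  congr 1
  funext i
  rw [Pi.smul_apply, smul_eq_mul, Pi.star_apply, Complex.star_def, Complex.sub_conj]
  push_cast
  linear_combination (-((T i).im : ℂ)) * Complex.I_mul_I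

theorem ev_wt (l : I) {T : I → ℂ} (hT : diagonal T ∈ h) : ev (wt h l) T = T l := by
  have h1 : ∀ w : rt h, ev (wt h l) (fun i => (((w : EuclideanSpace ℝ I) i : ℝ) : ℂ))
      = (((w : EuclideanSpace ℝ I) l : ℝ) : ℂ) := by
    intro w
    rw [ev_real, inner_wt]
  have h2 := h1 ⟨WithLp.toLp 2 fun i => (T i).re, re_mem hS hT⟩
  have h3 := h1 ⟨WithLp.toLp 2 fun i => (T i).im, im_mem hS hT⟩
  have h4 : ev (wt h l) T = ev (wt h l) (fun i => ((T i).re : ℂ)) +
      Complex.I * ev (wt h l) (fun i => ((T i).im : ℂ)) := by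
    rw [ev, ev, ev, Finset.mul_sum, ← Finset.sum_add_distrib]
    refine Finset.sum_congr rfl fun i _ => ?_
    conv_lhs => rw [← Complex.re_add_im (T i)]
    ring
  have h5 : ev (wt h l) (fun i => ((T i).re : ℂ)) = ((T l).re : ℂ) := h2
  have h6 : ev (wt h l) (fun i => ((T i).im : ℂ)) = ((T l).im : ℂ) := h3
  rw [h4, h5, h6]
  conv_rhs => rw [← Complex.re_add_im (T l)]
  ring

/-- the sum of the weights of a word is zero -/
theorem sum_wt_eq_zero {L : ℕ} (l : Fin L → I) (H : ∀ T, diagonal T ∈ h → ∑ j, T (l j) = 0) :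
    ∑ j, wt h (l j) = 0 := by
  refine ext_inner_right ℝ fun u => ?_
  rw [sum_inner, inner_zero_left]
  simp only [inner_wt]
  have h1 := H _ (mem_rt u)
  exact_mod_cast h1

theorem wt_neg_of {i j : I} (H : ∀ T, diagonal T ∈ h → T i + T j = 0) : wt h i = -wt h j := by
  refine ev_ext fun T hT => ?_
  rw [ev_neg, ev_wt hS i hT, ev_wt hS j hT]
  linear_combination H T hT

end star

/-- the vector of a homogeneous element -/
noncomputable def rv (hS : Sit h κ) {x : Matrix I I ℂ} {α : (I → ℂ) → ℂ} {c : ℂ}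
    (hx : Hom h κ x α c) : rt h :=
  ⟨WithLp.toLp 2 fun l => (nrm x)⁻¹ * (tt x l).re, by
    have h1 := h.smul_mem ((nrm x : ℂ)⁻¹) (mem_tt hS hx)
    refine (congrArg (· ∈ h) ?_).mp h1
    rw [← Matrix.diagonal_smul]
    congr 1
    funext i
    rw [Pi.smul_apply, smul_eq_mul]
    show _ = (((nrm x)⁻¹ * (tt x i).re : ℝ) : ℂ)
    rw [Complex.ofReal_mul, Complex.ofReal_inv, tt_eq, Complex.ofReal_re]⟩

theorem rv_apply (hS : Sit h κ) {x : Matrix I I ℂ} {α : (I → ℂ) → ℂ} {c : ℂ}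
    (hx : Hom h κ x α c) (l : I) :
    ((rv hS hx : rt h) : EuclideanSpace ℝ I) l = (nrm x)⁻¹ * (tt x l).re := rfl

theorem tt_real (x : Matrix I I ℂ) (l : I) : (((tt x l).re : ℝ) : ℂ) = tt x l := by
  rw [tt_eq, Complex.ofReal_re]

theorem ev_rv (hS : Sit h κ) {x : Matrix I I ℂ} {α : (I → ℂ) → ℂ} {c : ℂ}
    (hx : Hom h κ x α c) {T : I → ℂ} (hT : diagonal T ∈ h) : ev (rv hS hx) T = α T := by
  have h0 : (nrm x : ℂ) ≠ 0 := by exact_mod_cast (nrm_pos hx.ne).ne'
  have h1 := sum_tt hx hT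
  rw [ev]
  simp only [rv_apply]
  have h2 : ∀ i, (((nrm x)⁻¹ * (tt x i).re : ℝ) : ℂ) * T i = (nrm x : ℂ)⁻¹ * (T i * tt x i) := by
    intro i
    rw [Complex.ofReal_mul, tt_real]
    push_cast
    ring
  simp only [h2]
  rw [← Finset.mul_sum, h1]
  field_simp

/-- the roots -/
def Rt (h : Submodule ℂ (Matrix I I ℂ)) (κ : I → ℂ) : Set (rt h) :=
  {v | v ≠ 0 ∧ ∃ x α c, Hom h κ x α c ∧ ∀ T, diagonal T ∈ h → ev v T = α T}

theorem eq_rv (hS : Sit h κ) {v : rt h} {x : Matrix I I ℂ} {α : (I → ℂ) → ℂ} {c : ℂ}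
    (hx : Hom h κ x α c) (hv : ∀ T, diagonal T ∈ h → ev v T = α T) : v = rv hS hx :=
  ev_ext fun T hT => by rw [hv T hT, ev_rv hS hx hT]

theorem wt_sub (hS : Sit h κ) {v : rt h} {x : Matrix I I ℂ} {α : (I → ℂ) → ℂ} {c : ℂ}
    (hx : Hom h κ x α c) (hv : ∀ T, diagonal T ∈ h → ev v T = α T) {i j : I} (hij : x i j ≠ 0) :
    wt h i - wt h j = v :=
  ev_ext fun T hT => by rw [ev_sub, ev_wt hS i hT, ev_wt hS j hT, hx.wt i j hij T hT, hv T hT]

theorem Rt_neg (hS : Sit h κ) : ∀ v ∈ Rt h κ, -v ∈ Rt h κ := by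
  rintro v ⟨h0, x, α, c, hx, hv⟩
  exact ⟨neg_ne_zero.2 h0, xᴴ, _, _, hx.star hS, fun T hT => by rw [ev_neg, hv T hT]⟩

theorem Rt_dif (hS : Sit h κ) : ∀ v ∈ Rt h κ, ∃ i j, v = wt h i - wt h j := by
  rintro v ⟨h0, x, α, c, hx, hv⟩
  obtain ⟨i, j, hij⟩ : ∃ i j, x i j ≠ 0 := by
    by_contra hc
    push Not at hc
    exact hx.ne (by ext i j; simpa using hc i j)
  exact ⟨i, j, (wt_sub hS hx hv hij).symm⟩

theorem Rt_mov (hS : Sit h κ) (l : I) : ∀ v ∈ Rt h κ, 0 < ⟪wt h l, v⟫_ℝ →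
    ∃ m, wt h m = wt h l - v := by
  rintro v ⟨h0, x, α, c, hx, hv⟩ hp
  rw [inner_wt, eq_rv hS hx hv, rv_apply] at hp
  have h1 : 0 < (tt x l).re := (pos_iff_pos_of_mul_pos hp).1 (inv_pos.2 (nrm_pos hx.ne))
  obtain ⟨m, hm⟩ := exists_of_tt_pos h1
  exact ⟨m, by rw [← wt_sub hS hx hv hm, sub_sub_cancel]⟩

theorem Rt_add (hS : Sit h κ) : ∀ a ∈ Rt h κ, ∀ b ∈ Rt h κ, ⟪a, b⟫_ℝ < 0 →
    a + b ∈ Rt h κ ∨ a + b = 0 := by
  rintro a ⟨ha0, x, α, c, hx, ha⟩ b ⟨hb0, y, β, d, hy, hb⟩ hneg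
  by_cases h0 : a + b = 0
  · exact Or.inr h0
  · refine Or.inl ⟨h0, _, _, _, hom_comm hS hx hy (comm_ne hS hx hy ?_), fun T hT => ?_⟩
    · rw [← hb _ (mem_tt hS hx), ev]
      have h1 : ∀ i, (tt x i) = (((nrm x) * (a : EuclideanSpace ℝ I) i : ℝ) : ℂ) := by
        intro i
        rw [eq_rv hS hx ha, rv_apply, ← mul_assoc, mul_inv_cancel₀ (nrm_pos hx.ne).ne', one_mul,
          tt_real]
      have h2 : (∑ i, (((b : EuclideanSpace ℝ I) i : ℝ) : ℂ) * tt x i).re = nrm x * ⟪a, b⟫_ℝ := by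
        rw [inner_eq, Finset.mul_sum, Complex.re_sum]
        refine Finset.sum_congr rfl fun i _ => ?_
        rw [h1, ← Complex.ofReal_mul, Complex.ofReal_re]
        ring
      rw [h2]
      exact mul_neg_of_pos_of_neg (nrm_pos hx.ne) hneg
    · rw [ev_add, ha T hT, hb T hT]

/-- integrality in the form of the homogeneous elements gives integrality for the weights -/
theorem Rt_int (hS : Sit h κ)
    (hint : ∀ (x : Matrix I I ℂ) (α : (I → ℂ) → ℂ) (c : ℂ), Hom h κ x α c → ∀ l, ∃ n : ℤ,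
      2 * (tt x l).re * nrm x = n * ∑ j, (tt x j).re ^ 2) (l : I) :
    ∀ v ∈ Rt h κ, ∃ n : ℤ, 2 * ⟪wt h l, v⟫_ℝ = n * ⟪v, v⟫_ℝ := by
  rintro v ⟨h0, x, α, c, hx, hv⟩
  obtain ⟨n, hn⟩ := hint x α c hx l
  refine ⟨n, ?_⟩
  have hp := (nrm_pos hx.ne).ne'
  rw [inner_wt, inner_eq, eq_rv hS hx hv]
  simp only [rv_apply]
  have h1 : ∑ i, (nrm x)⁻¹ * (tt x i).re * ((nrm x)⁻¹ * (tt x i).re)
      = (nrm x)⁻¹ ^ 2 * ∑ j, (tt x j).re ^ 2 := by
    rw [Finset.mul_sum]
    exact Finset.sum_congr rfl fun i _ => by ring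
  rw [h1]
  field_simp
  linear_combination hn

/-! ### The classes -/

theorem sub_mem_of_sum (hS : Sit h κ) (s : Multiset (Tri I)) :
    (∀ p ∈ s, Hom h κ p.1 p.2.1 p.2.2) → ∀ v : rt h,
    (∀ T, diagonal T ∈ h → ev v T = (s.map fun p => p.2.1 T).sum) →
    v ∈ AddSubgroup.closure (Rt h κ) := by
  induction s using Multiset.induction_on with
  | empty =>
    intro _ v hv
    have h1 : v = 0 := ev_ext fun T hT => by rw [hv T hT, ev_zero]; simp
    rw [h1]
    exact zero_mem _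
  | cons p s ih =>
    intro hs v hv
    have hp := hs p (Multiset.mem_cons_self p s)
    have h1 := ih (fun q hq => hs q (Multiset.mem_cons_of_mem hq)) (v - rv hS hp) (by
      intro T hT
      rw [ev_sub, hv T hT, ev_rv hS hp hT, Multiset.map_cons, Multiset.sum_cons]
      ring)
    have h2 : rv hS hp ∈ AddSubgroup.closure (Rt h κ) := by
      by_cases h0 : rv hS hp = 0
      · rw [h0]
        exact zero_mem _
      · exact AddSubgroup.subset_closure ⟨h0, _, _, _, hp, fun T hT => ev_rv hS hp hT⟩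
    have h3 := add_mem h1 h2
    rwa [sub_add_cancel] at h3

theorem exists_sum (hS : Sit h κ) {v : rt h} (hv : v ∈ AddSubgroup.closure (Rt h κ)) :
    ∃ z : ℂˣ, QQ h κ (ev v) z := by
  induction hv using AddSubgroup.closure_induction with
  | mem v hv =>
    obtain ⟨-, x, α, c, hx, hv⟩ := hv
    have hc : c ≠ 0 := by
      rintro rfl
      obtain ⟨i, j, hij⟩ : ∃ i j, x i j ≠ 0 := by
        by_contra hc
        push Not at hc
        exact hx.ne (by ext i j; simpa using hc i j)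
      have h1 := hx.kk i j hij
      rw [zero_mul] at h1
      exact hS.ne i h1
    exact ⟨Units.mk0 c hc, {(x, α, c)}, by simpa using hx, fun T hT => by simpa using hv T hT,
      by simp⟩
  | zero => exact ⟨1, QQ.zero fun T _ => ev_zero T⟩
  | add v w _ _ hv hw =>
    obtain ⟨z, hz⟩ := hv
    obtain ⟨z', hz'⟩ := hw
    exact ⟨z * z', (hz.add hz').congr (fun T _ => ev_add v w T) rfl⟩
  | neg v _ hv =>
    obtain ⟨z, hz⟩ := hv
    exact ⟨z⁻¹, (hz.neg hS).congr (fun T _ => ev_neg v T) rfl⟩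

theorem sub_mem_iff (hS : Sit h κ)
    (hEQ : ∀ i j, (∀ T, diagonal T ∈ h → T i = T j) → κ i = κ j) (i j : I) :
    wt h i - wt h j ∈ AddSubgroup.closure (Rt h κ) ↔ Conn h κ i j := by
  constructor
  · intro hv
    obtain ⟨z, hz⟩ := exists_sum hS hv
    refine K1.conn_of_QQ hS hEQ hz fun T hT => ?_
    rw [ev_sub, ev_wt hS i hT, ev_wt hS j hT]
  · rintro ⟨s, h1, h2, -⟩
    refine sub_mem_of_sum hS s h1 _ fun T hT => ?_
    rw [ev_sub, ev_wt hS i hT, ev_wt hS j hT, h2 T hT]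
    ring

theorem two_mem (hS : Sit h κ)
    (hEQ : ∀ i j, (∀ T, diagonal T ∈ h → T i = T j) → κ i = κ j)
    (pairs : ∀ i, ∃ a b, Conn h κ i a ∧ Conn h κ i b ∧ ∀ T, diagonal T ∈ h → T a + T b = 0)
    (l : I) : wt h l + wt h l ∈ AddSubgroup.closure (Rt h κ) := by
  obtain ⟨a, b, ha, hb, hab⟩ := pairs l
  have h1 := (sub_mem_iff hS hEQ l a).2 ha
  have h2 := (sub_mem_iff hS hEQ l b).2 hb
  have h3 := wt_neg_of hS hab
  have h4 : wt h l + wt h l = (wt h l - wt h a) + (wt h l - wt h b) := by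
    rw [h3]
    abel
  rw [h4]
  exact add_mem h1 h2

/-- the opposite letters -/
theorem exists_opp (hS : Sit h κ) {P : Matrix I I ℂ} (hPt : P.transpose = -P) (hu : IsUnit P)
    (hP : ∀ A ∈ h, A.transpose * P + P * A = 0) (l : I) : ∃ m, wt h m = -wt h l ∧ m ≠ l := by
  obtain ⟨m, hm⟩ : ∃ m, P m l ≠ 0 := by
    by_contra hc
    push Not at hc
    obtain ⟨u, hu⟩ := hu
    have h1 : (u⁻¹ : (Matrix I I ℂ)ˣ).1 * P = 1 := by
      rw [← hu]
      exact u.inv_mul
    have h2 := congrFun (congrFun h1 l) l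
    rw [Matrix.mul_apply, Matrix.one_apply_eq] at h2
    simp [hc] at h2
  refine ⟨m, wt_neg_of hS fun T hT => ?_, ?_⟩
  · have h2 := congrFun (congrFun (hP _ hT) m) l
    rw [Matrix.diagonal_transpose, Matrix.add_apply, Matrix.diagonal_mul, Matrix.mul_diagonal,
      Matrix.zero_apply, mul_comm, ← mul_add] at h2
    exact (mul_eq_zero.1 h2).resolve_left hm
  · rintro rfl
    have h2 := congrFun (congrFun hPt m) m
    rw [Matrix.transpose_apply, Matrix.neg_apply] at h2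
    apply hm
    linear_combination (1 / 2 : ℂ) * h2

/-- **Row EUC.** -/
theorem rootSit (hS : Sit h κ) (hEQ : ∀ i j, (∀ T, diagonal T ∈ h → T i = T j) → κ i = κ j)
    (pairs : ∀ i, ∃ a b, Conn h κ i a ∧ Conn h κ i b ∧ ∀ T, diagonal T ∈ h → T a + T b = 0)
    {P : Matrix I I ℂ} (hPt : P.transpose = -P) (hu : IsUnit P)
    (hP : ∀ A ∈ h, A.transpose * P + P * A = 0)
    (hint : ∀ (x : Matrix I I ℂ) (α : (I → ℂ) → ℂ) (c : ℂ), Hom h κ x α c → ∀ l, ∃ n : ℤ,
      2 * (tt x l).re * nrm x = n * ∑ j, (tt x j).re ^ 2)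
    (hpar : ∀ l, ∀ b ∈ Rt h κ, ∀ c ∈ Rt h κ, ⟪b, c⟫_ℝ = 0 → wt h l + wt h l = b + c →
      wt h l + wt h l ∉ Rt h κ → 8 ≤ Nat.card {m // wt h m - wt h l ∈ AddSubgroup.closure (Rt h κ)}) :
    ∃ τ : I → I, RootSit (wt h) (Rt h κ) τ := by
  choose τ hτ using exists_opp hS hPt hu hP
  exact ⟨τ, fun h0 => h0.1 rfl, Rt_neg hS, Rt_int hS hint, Rt_dif hS, Rt_add hS, Rt_mov hS,
    fun l => (hτ l).1, fun l => (hτ l).2, two_mem hS hEQ pairs, hpar⟩

end Pool.Agent.Lib.MP_361a6f_ag.FL.E11
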