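import Pool.Agent.Lib.MP_361a6f_ag.FL.E.LemR

/-!
# Theorem E11, row INT

The weights are integral on the roots (`sl₂` triples), and a homogeneous element is injective on a
weight space on which its root is negative.
-/

open Matrix

namespace Pool.Agent.Lib.MP_361a6f_ag.FL.E11

open Pool.Agent.Lib.MP_361a6f_ag.FL.E.LemR

variable {I : Type} [Fintype I] [DecidableEq I] {h : Submodule ℂ (Matrix I I ℂ)} {κ : I → ℂ}

/-- `[D, x] = (the type of x at D) x` -/
theorem diag_comm {x : Matrix I I ℂ} {α : (I → ℂ) → ℂ} {c : ℂ} (hx : Hom h κ x α c)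
    {T : I → ℂ} (hT : diagonal T ∈ h) : diagonal T * x - x * diagonal T = α T • x := by
  ext i j
  simp only [Matrix.sub_apply, Matrix.diagonal_mul, Matrix.mul_diagonal, Matrix.smul_apply,
    smul_eq_mul]
  by_cases hij : x i j = 0
  · simp [hij]
  · rw [← hx.wt i j hij _ hT]
    ring

/-- the type of the conjugate transpose -/
theorem diag_commH {x : Matrix I I ℂ} {α : (I → ℂ) → ℂ} {c : ℂ} (hx : Hom h κ x α c)
    {T : I → ℂ} (hT : diagonal T ∈ h) : diagonal T * xᴴ - xᴴ * diagonal T = -(α T) • xᴴ := by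
  ext i j
  simp only [Matrix.sub_apply, Matrix.diagonal_mul, Matrix.mul_diagonal, Matrix.smul_apply,
    smul_eq_mul, Matrix.conjTranspose_apply]
  by_cases hij : x j i = 0
  · simp [hij]
  · rw [← hx.wt j i hij _ hT]
    ring

theorem triple {R : Type*} [Ring R] [Algebra ℂ R] {H X Y : R} {A : ℂ} (hA0 : A ≠ 0)
    (e1 : H * X - X * H = A • X) (e2 : H * Y - Y * H = -A • Y) (e3 : X * Y - Y * X = H) :
    X * ((2 / A) • Y) - ((2 / A) • Y) * X = (2 / A) • H ∧
    ((2 / A) • H) * X - X * ((2 / A) • H) = 2 • X ∧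
    ((2 / A) • H) * ((2 / A) • Y) - ((2 / A) • Y) * ((2 / A) • H) = -(2 • ((2 / A) • Y)) := by
  refine ⟨?_, ?_, ?_⟩
  · rw [← e3, smul_mul_assoc, mul_smul_comm, ← smul_sub]
  · rw [smul_mul_assoc, mul_smul_comm, ← smul_sub, e1, smul_smul, div_mul_cancel₀ _ hA0,
      two_smul, two_nsmul]
  · rw [smul_mul_smul_comm, smul_mul_smul_comm, ← smul_sub, e2, smul_smul, two_nsmul,
      ← two_smul ℂ ((2 / A) • Y), smul_smul, ← neg_smul]
    congr 1
    field_simp

attribute [local instance 100] LieRing.ofAssociativeRing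

/-- INT: `2 (T_l, a) = n |a|²` -/
theorem int_tt (S : Sit h κ) {x : Matrix I I ℂ} {α : (I → ℂ) → ℂ} {c : ℂ}
    (hx : Hom h κ x α c) {a : I → ℂ} (hmem : diagonal a ∈ h) (ha : α a ≠ 0) (l : I) :
    ∃ n : ℤ, 2 * tt x l = n * α (tt x) := by
  have hm := mem_tt S hx
  set A := α (tt x) with hA
  have hA0 : A ≠ 0 := by
    intro h0
    have := pos_tt S hx hmem ha
    rw [← hA, h0] at this
    simp at this
  set H : Module.End ℂ (I → ℂ) := Matrix.toLin' (diagonal (tt x)) with hH
  set X : Module.End ℂ (I → ℂ) := Matrix.toLin' x with hX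
  set Y : Module.End ℂ (I → ℂ) := Matrix.toLin' xᴴ with hY
  have e1 : H * X - X * H = A • X := by
    rw [hH, hX, Module.End.mul_eq_comp, Module.End.mul_eq_comp, ← Matrix.toLin'_mul,
      ← Matrix.toLin'_mul, ← map_sub, diag_comm hx hm, map_smul]
  have e2 : H * Y - Y * H = -A • Y := by
    rw [hH, hY, Module.End.mul_eq_comp, Module.End.mul_eq_comp, ← Matrix.toLin'_mul,
      ← Matrix.toLin'_mul, ← map_sub, diag_commH hx hm, map_smul]
  have e3 : X * Y - Y * X = H := by
    rw [hX, hY, hH, Module.End.mul_eq_comp, Module.End.mul_eq_comp, ← Matrix.toLin'_mul,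
      ← Matrix.toLin'_mul, ← map_sub, diag_tt S hx]
  have hH0 : H ≠ 0 := by
    intro h0
    rw [h0] at e1
    simp only [zero_mul, mul_zero, sub_self] at e1
    rcases smul_eq_zero.1 e1.symm with h1 | h1
    · exact hA0 h1
    · rw [hX] at h1
      exact hx.ne ((LinearEquiv.map_eq_zero_iff _).1 h1)
  -- the triple
  obtain ⟨f1, f2, f3⟩ := triple hA0 e1 e2 e3
  have t : IsSl2Triple ((2 / A) • H) X ((2 / A) • Y) := by
    refine ⟨?_, ?_, ?_, ?_⟩
    · intro h0
      rcases smul_eq_zero.1 h0 with h1 | h1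
      · exact (div_ne_zero two_ne_zero hA0) h1
      · exact hH0 h1
    · rw [LieRing.of_associative_ring_bracket]
      exact f1
    · rw [LieRing.of_associative_ring_bracket]
      exact f2
    · rw [LieRing.of_associative_ring_bracket]
      exact f3
  -- the powers of `x` on the basis vector
  set v : ℕ → I → ℂ := fun k => (X ^ k) (Pi.single l 1) with hv
  have hv1 : ∀ k, H (v k) = (tt x l + k * A) • v k := by
    intro k
    induction k with
    | zero =>
      simp only [hv, pow_zero, Module.End.one_apply, Nat.cast_zero, zero_mul, add_zero, hH,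
        Matrix.toLin'_apply]
      ext i
      rw [Matrix.mulVec_diagonal, Pi.smul_apply, smul_eq_mul]
      by_cases hi : i = l
      · subst hi; rfl
      · simp [Pi.single_eq_of_ne hi]
    | succ k ih =>
      have h1 : v (k + 1) = X (v k) := by
        simp only [hv, pow_succ', Module.End.mul_apply]
      have h2 : H (X (v k)) = X (H (v k)) + A • X (v k) := by
        have := congrArg (fun F : Module.End ℂ (I → ℂ) => F (v k)) e1
        simp only [LinearMap.sub_apply, Module.End.mul_apply, LinearMap.smul_apply] at this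
        rw [← this]
        abel
      rw [h1, h2, ih, map_smul, ← add_smul]
      congr 1
      push_cast
      ring
  obtain ⟨N, hN⟩ : ∃ N, v N = 0 := by
    by_contra hc
    push Not at hc
    have h1 : ∀ k, ∃ i, v k i ≠ 0 := by
      intro k
      by_contra h0
      push Not at h0
      exact hc k (funext h0)
    choose m hm using h1
    have h2 : ∀ k, tt x (m k) = tt x l + k * A := by
      intro k
      have h3 := congrFun (hv1 k) (m k)
      rw [hH, Matrix.toLin'_apply, Matrix.mulVec_diagonal, Pi.smul_apply, smul_eq_mul] at h3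
      exact mul_right_cancel₀ (hm k) h3
    refine not_injective_infinite_finite m fun k k' hkk => ?_
    have h3 := (h2 k).symm.trans ((congrArg (tt x) hkk).trans (h2 k'))
    have h4 := mul_right_cancel₀ hA0 (add_left_cancel h3)
    exact_mod_cast h4
  have hv0 : v 0 ≠ 0 := by
    intro h0
    have h1 := congrFun h0 l
    simp [hv] at h1
  obtain ⟨n, hn1, hn2⟩ := Nat.exists_not_and_succ_of_not_zero_of_exists (p := fun k => v k = 0)
    hv0 ⟨N, hN⟩
  have hP : t.HasPrimitiveVectorWith (v n) (2 / A * (tt x l + n * A)) := by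
    refine ⟨hn1, ?_, ?_⟩
    · change ((2 / A) • H) (v n) = _
      rw [LinearMap.smul_apply, hv1, smul_smul]
    · change X (v n) = 0
      rw [← hn2]
      simp only [hv, pow_succ', Module.End.mul_apply]
  obtain ⟨p, hp⟩ := hP.exists_nat
  refine ⟨(p : ℤ) - 2 * n, ?_⟩
  push_cast
  rw [← hp]
  field_simp
  ring

/-- INT in the real form of the row EUC -/
theorem int_re (S : Sit h κ) : ∀ x α c, Hom h κ x α c → ∀ l, ∃ n : ℤ,
    2 * (tt x l).re * nrm x = n * ∑ j, (tt x j).re ^ 2 := by
  intro x α c hx l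
  have hr : ∀ i, tt x i = ((tt x i).re : ℂ) := by
    intro i
    rw [tt_eq, Complex.ofReal_re]
  have h1 := sum_tt hx (mem_tt S hx)
  have h2 : ((∑ j, (tt x j).re ^ 2 : ℝ) : ℂ) = α (tt x) * (nrm x : ℂ) := by
    rw [← h1]
    push_cast
    refine Finset.sum_congr rfl fun i _ => ?_
    rw [← hr i, sq]
  by_cases h0 : α (tt x) = 0
  · rw [h0, zero_mul, Complex.ofReal_eq_zero] at h2
    have h3 : (tt x l).re ^ 2 = 0 :=
      (Finset.sum_eq_zero_iff_of_nonneg (fun _ _ => sq_nonneg _)).1 h2 l (Finset.mem_univ l)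
    have h4 : (tt x l).re = 0 := pow_eq_zero_iff (two_ne_zero) |>.1 h3
    exact ⟨0, by rw [h4]; simp⟩
  · obtain ⟨n, hn⟩ := int_tt S hx (mem_tt S hx) h0 l
    refine ⟨n, ?_⟩
    apply Complex.ofReal_injective
    push_cast
    rw [← hr l, hn]
    have h3 : (∑ j, ((tt x j).re : ℂ) ^ 2) = α (tt x) * (nrm x : ℂ) := by
      rw [← h2]
      push_cast
      rfl
    rw [h3]
    ring

end Pool.Agent.Lib.MP_361a6f_ag.FL.E11
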