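import Pool.Agent.Lib.MP_361a6f_ag.FL.E11.Defs

/-!
# Theorem E11, row L2: a root with large inner product (the proof of helper40)
-/

set_option autoImplicit false

open scoped InnerProductSpace

namespace Pool.Agent.Lib.MP_361a6f_ag.FL.E11

variable {V : Type*} [NormedAddCommGroup V] [InnerProductSpace ℝ V]

/-- an element of the lattice is a sum of roots -/
theorem exists_list {R : Set V} (hneg : ∀ α ∈ R, -α ∈ R) {μ : V}
    (hμ : μ ∈ AddSubgroup.closure R) : ∃ s : List V, (∀ x ∈ s, x ∈ R) ∧ s.sum = μ := by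
  induction hμ using AddSubgroup.closure_induction with
  | mem x hx => exact ⟨[x], by simpa using hx, by simp⟩
  | zero => exact ⟨[], by simp, rfl⟩
  | add x y _ _ hx hy =>
    obtain ⟨s, hs, rfl⟩ := hx
    obtain ⟨t, ht, rfl⟩ := hy
    refine ⟨s ++ t, ?_, List.sum_append⟩
    intro z hz
    rcases List.mem_append.1 hz with h | h
    · exact hs z h
    · exact ht z h
  | neg x _ hx =>
    obtain ⟨s, hs, rfl⟩ := hx
    refine ⟨s.map Neg.neg, ?_, ?_⟩
    · intro z hz
      obtain ⟨y, hy, rfl⟩ := List.mem_map.1 hz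
      exact hneg y (hs y hy)
    · have h : ∀ t : List V, (t.map Neg.neg).sum = -t.sum := by
        intro t
        induction t with
        | nil => simp
        | cons a t ih => rw [List.map_cons, List.sum_cons, List.sum_cons, ih, neg_add]
      exact h s

/-- a nonzero element of the lattice has a root with large inner product -/
theorem exists_root {R : Set V} (hneg : ∀ α ∈ R, -α ∈ R)
    (hadd : ∀ β ∈ R, ∀ γ ∈ R, inner ℝ β γ < 0 → β + γ ∈ R ∨ β + γ = 0) {μ : V}
    (hμ : μ ∈ AddSubgroup.closure R) (h0 : μ ≠ 0) : ∃ α ∈ R, ‖α‖ ^ 2 ≤ inner ℝ μ α := by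
  classical
  have hex : ∃ n : ℕ, ∃ s : List V, s.length = n ∧ (∀ x ∈ s, x ∈ R) ∧ s.sum = μ := by
    obtain ⟨s, h1, h2⟩ := exists_list hneg hμ
    exact ⟨_, s, rfl, h1, h2⟩
  obtain ⟨s, hs, hR, hsum⟩ := Nat.find_spec hex
  have hmin := fun m (hm : m < Nat.find hex) => Nat.find_min hex hm
  rcases s with _ | ⟨β, s⟩
  · exact absurd hsum.symm h0
  · refine ⟨β, hR β (by simp), ?_⟩
    rw [← hsum, List.sum_cons, inner_add_left, real_inner_self_eq_norm_sq]
    have h1 : 0 ≤ inner ℝ s.sum β := by
      by_contra hc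
      push Not at hc
      obtain ⟨γ, hγ, hlt⟩ : ∃ γ ∈ s, inner ℝ γ β < 0 := by
        by_contra hall
        push Not at hall
        have h2 : ∀ t : List V, (∀ γ ∈ t, 0 ≤ inner ℝ γ β) → 0 ≤ inner ℝ t.sum β := by
          intro t
          induction t with
          | nil => intro _; simp
          | cons a t ih =>
            intro h
            rw [List.sum_cons, inner_add_left]
            exact add_nonneg (h a (by simp)) (ih fun γ hγ => h γ (by simp [hγ]))
        exact absurd (h2 s hall) (not_le.2 hc)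
      have hp := List.perm_cons_erase hγ
      have hsum' : β + (γ + (s.erase γ).sum) = μ := by
        rw [← hsum, List.sum_cons, hp.sum_eq, List.sum_cons]
      have hlen : s.length = (s.erase γ).length + 1 := by
        rw [hp.length_eq, List.length_cons]
      have hR' : ∀ x ∈ s.erase γ, x ∈ R := fun x hx =>
        hR x (List.mem_cons_of_mem _ (List.mem_of_mem_erase hx))
      rw [List.length_cons] at hs
      rcases hadd β (hR β (by simp)) γ (hR γ (by simp [hγ])) (by rw [real_inner_comm]; exact hlt)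
        with h2 | h2
      · refine hmin ((s.erase γ).length + 1) (by omega) ⟨(β + γ) :: s.erase γ, by simp, ?_, ?_⟩
        · intro x hx
          rcases List.mem_cons.1 hx with rfl | hx
          · exact h2
          · exact hR' x hx
        · rw [List.sum_cons, add_assoc]
          exact hsum'
      · refine hmin (s.erase γ).length (by omega) ⟨s.erase γ, rfl, hR', ?_⟩
        rw [← hsum', ← add_assoc, h2, zero_add]
    linarith

/-- Row L2. -/
theorem l2.{u} : L2Statement.{u} := by
  intro E _ _ Φ h0 hneg hadd μ hμ hne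
  obtain ⟨a, ha, h1⟩ := exists_root hneg hadd hμ hne
  refine ⟨a, ha, ?_⟩
  have ha0 : a ≠ 0 := fun h => h0 (h ▸ ha)
  have h2 : 0 < ⟪a, a⟫_ℝ := real_inner_self_pos.2 ha0
  have h3 : ⟪a, a⟫_ℝ ≤ ⟪μ, a⟫_ℝ := by
    rw [real_inner_self_eq_norm_sq]
    exact h1
  linarith

end Pool.Agent.Lib.MP_361a6f_ag.FL.E11
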