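import Pool.Agent.Lib.MP_361a6f_ag.FL.E11.Euc
import Pool.Agent.Lib.MP_361a6f_ag.FL.E11.DefsN

/-!
# Theorem E11: the counting lemma in the frame
-/

set_option autoImplicit false
set_option linter.unusedSectionVars false

open Matrix
open scoped InnerProductSpace

namespace Pool.Agent.Lib.MP_361a6f_ag.FL.E11

open E E.LemR

/-- Integrality (row INT). -/
def IntStatement : Prop :=
  ∀ {I : Type} [Fintype I] [DecidableEq I] (S : Submodule ℂ (Matrix I I ℂ)) (k : I → ℂ),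
    Sit S k → ∀ (x : Matrix I I ℂ) (α : (I → ℂ) → ℂ) (c : ℂ), Hom S k x α c → ∀ l, ∃ n : ℤ,
      2 * (tt x l).re * nrm x = n * ∑ j, (tt x j).re ^ 2

/-- Eight letters (row PAR). -/
def Par8Statement : Prop :=
  ∀ {I : Type} [Fintype I] [DecidableEq I] (S : Submodule ℂ (Matrix I I ℂ)) (k : I → ℂ),
    Sit S k → ∀ P : Matrix I I ℂ, (∀ A ∈ S, A.transpose * P + P * A = 0) →
    P.transpose = -P → IsUnit P → ∀ (x y : Matrix I I ℂ) (a b : (I → ℂ) → ℂ) (c d : ℂ),
    Hom S k x a c → Hom S k y b d → x * y = y * x → b (tt x) = 0 → a (tt y) = 0 →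
    ∀ i, 0 < (tt x i).re → 0 < (tt y i).re →
    (∀ T, diagonal T ∈ S → T i + T i = a T + b T) →
    8 ≤ Nat.card {m // (∀ T, diagonal T ∈ S → T m = T i) ∨
      (∀ T, diagonal T ∈ S → T m = T i - a T) ∨ (∀ T, diagonal T ∈ S → T m = T i - b T) ∨
      (∀ T, diagonal T ∈ S → T m = T i - a T - b T)}

variable {I : Type} [Fintype I] [DecidableEq I] {h : Submodule ℂ (Matrix I I ℂ)} {κ : I → ℂ}

/-- the product of a root with the diagonal element of another root -/
theorem ev_tt (hS : Sit h κ) {v w : rt h} {x : Matrix I I ℂ} {α : (I → ℂ) → ℂ} {c : ℂ}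
    (hx : Hom h κ x α c) (hv : ∀ T, diagonal T ∈ h → ev v T = α T) :
    ev w (tt x) = ((nrm x * ⟪v, w⟫_ℝ : ℝ) : ℂ) := by
  have h1 : ∀ i, (tt x i) = (((nrm x) * (v : EuclideanSpace ℝ I) i : ℝ) : ℂ) := by
    intro i
    rw [eq_rv hS hx hv, rv_apply, ← mul_assoc, mul_inv_cancel₀ (nrm_pos hx.ne).ne', one_mul,
      tt_real]
  rw [ev, inner_eq, Finset.mul_sum, Complex.ofReal_sum]
  refine Finset.sum_congr rfl fun i _ => ?_
  rw [h1]
  push_cast
  ring

/-- the field `par` -/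
theorem par_of (h8 : Par8Statement) (hS : Sit h κ) {P : Matrix I I ℂ} (hPt : P.transpose = -P)
    (hu : IsUnit P) (hP : ∀ A ∈ h, A.transpose * P + P * A = 0) (l : I) :
    ∀ b ∈ Rt h κ, ∀ c ∈ Rt h κ, ⟪b, c⟫_ℝ = 0 → wt h l + wt h l = b + c →
      wt h l + wt h l ∉ Rt h κ →
      8 ≤ Nat.card {m // wt h m - wt h l ∈ AddSubgroup.closure (Rt h κ)} := by
  intro b hb c hc hbc h2 hn
  obtain ⟨hb0, x, α, e, hx, hxb⟩ := hb
  obtain ⟨hc0, y, β, f, hy, hyc⟩ := hc
  have hb : b ∈ Rt h κ := ⟨hb0, x, α, e, hx, hxb⟩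
  have hc : c ∈ Rt h κ := ⟨hc0, y, β, f, hy, hyc⟩
  have hbb : 0 < ⟪b, b⟫_ℝ := real_inner_self_pos.2 hb0
  have hcc : 0 < ⟪c, c⟫_ℝ := real_inner_self_pos.2 hc0
  have hne : b + c ≠ 0 := by
    intro h0
    have h3 : ⟪b + c, c⟫_ℝ = 0 := by rw [h0, inner_zero_left]
    rw [inner_add_left, hbc, zero_add] at h3
    exact hcc.ne' h3
  have hxy : x * y = y * x := by
    by_contra hne'
    refine hn ⟨by rw [h2]; exact hne, _, _, _, hom_comm hS hx hy (sub_ne_zero.2 hne'),
      fun T hT => ?_⟩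
    rw [h2, ev_add, hxb T hT, hyc T hT]
  have hlb : 2 * (b : EuclideanSpace ℝ I) l = ⟪b, b⟫_ℝ := by
    have h3 : ⟪wt h l + wt h l, b⟫_ℝ = ⟪b + c, b⟫_ℝ := by rw [h2]
    rw [inner_add_left, inner_add_left, inner_wt, real_inner_comm b c, hbc, add_zero] at h3
    linarith
  have hlc : 2 * (c : EuclideanSpace ℝ I) l = ⟪c, c⟫_ℝ := by
    have h3 : ⟪wt h l + wt h l, c⟫_ℝ = ⟪b + c, c⟫_ℝ := by rw [h2]
    rw [inner_add_left, inner_add_left, inner_wt, hbc, zero_add] at h3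
    linarith
  have hpos : ∀ {v : rt h} {z : Matrix I I ℂ} {γ : (I → ℂ) → ℂ} {g : ℂ} (hz : Hom h κ z γ g),
      (∀ T, diagonal T ∈ h → ev v T = γ T) → 0 < (v : EuclideanSpace ℝ I) l →
      0 < (tt z l).re := by
    intro v z γ g hz hv hp
    rw [eq_rv hS hz hv, rv_apply] at hp
    exact (pos_iff_pos_of_mul_pos hp).1 (inv_pos.2 (nrm_pos hz.ne))
  have h3 := h8 h κ hS P hP hPt hu x y α β e f hx hy hxy
    (by rw [← hyc _ (mem_tt hS hx), ev_tt hS hx hxb, hbc, mul_zero, Complex.ofReal_zero])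
    (by rw [← hxb _ (mem_tt hS hy), ev_tt hS hy hyc, real_inner_comm b c, hbc, mul_zero,
      Complex.ofReal_zero]) l (hpos hx hxb (by linarith)) (hpos hy hyc (by linarith))
    (fun T hT => by
      rw [← hxb T hT, ← hyc T hT, ← ev_add, ← h2, ev_add, ev_wt hS l hT])
  refine h3.trans ?_
  have hsub : ∀ m, ((∀ T, diagonal T ∈ h → T m = T l) ∨
      (∀ T, diagonal T ∈ h → T m = T l - α T) ∨ (∀ T, diagonal T ∈ h → T m = T l - β T) ∨
      (∀ T, diagonal T ∈ h → T m = T l - α T - β T)) →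
      wt h m - wt h l ∈ AddSubgroup.closure (Rt h κ) := by
    intro m hm
    have hb' := AddSubgroup.subset_closure (k := Rt h κ) hb
    have hc' := AddSubgroup.subset_closure (k := Rt h κ) hc
    rcases hm with hm | hm | hm | hm
    · have h4 : wt h m - wt h l = 0 := ev_ext fun T hT => by
        rw [ev_sub, ev_wt hS m hT, ev_wt hS l hT, ev_zero, hm T hT, sub_self]
      rw [h4]
      exact zero_mem _
    · have h4 : wt h m - wt h l = -b := ev_ext fun T hT => by
        rw [ev_sub, ev_wt hS m hT, ev_wt hS l hT, ev_neg, hxb T hT, hm T hT]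
        ring
      rw [h4]
      exact neg_mem hb'
    · have h4 : wt h m - wt h l = -c := ev_ext fun T hT => by
        rw [ev_sub, ev_wt hS m hT, ev_wt hS l hT, ev_neg, hyc T hT, hm T hT]
        ring
      rw [h4]
      exact neg_mem hc'
    · have h4 : wt h m - wt h l = -b + -c := ev_ext fun T hT => by
        rw [ev_sub, ev_wt hS m hT, ev_wt hS l hT, ev_add, ev_neg, ev_neg, hxb T hT, hyc T hT,
          hm T hT]
        ring
      rw [h4]
      exact add_mem (neg_mem hb') (neg_mem hc')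
  exact Nat.card_le_card_of_injective
    (fun m => (⟨m.1, hsub m.1 m.2⟩ : {m // wt h m - wt h l ∈ AddSubgroup.closure (Rt h κ)}))
    fun m m' hmm => Subtype.ext (congrArg (fun z => z.1) hmm)

/-- **The counting lemma in the frame.** -/
theorem lemN (h11 : Lemma11Statement.{0, 0}) (hint : IntStatement) (h8 : Par8Statement) :
    LemNStatement := by
  intro I _ _ S κ P hS hPt hu hP pairs hEQ L l hL h0 hnc
  obtain ⟨τ, hR⟩ := rootSit hS hEQ pairs hPt hu hP (hint S κ hS)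
    (fun l => par_of h8 hS hPt hu hP l)
  have h1 := h11 hR l hL (sum_wt_eq_zero hS l h0) fun a b hab hmem =>
    hnc a b hab ((sub_mem_iff hS hEQ _ _).1 hmem)
  rwa [Nat.card_eq_fintype_card] at h1

end Pool.Agent.Lib.MP_361a6f_ag.FL.E11
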