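import Pool.Agent.Lib.MP_361a6f_ag.FL.E.LemR

/-!
# Theorem E11, rows RAISE and PAR

In the situation of `FL/E/LemR.lean`: if `x` is homogeneous and the real diagonal matrix `[x, x*]`
is positive on the letters of a weight then `x*` is injective on the weight space. If
`2 T = b + c` for the weight `T` of a letter and two orthogonal types `b`, `c` such that the
homogeneous elements commute then the weights `T`, `T - b`, `T - c`, `T - b - c = -T` have at least
two letters each.
-/

set_option autoImplicit false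
set_option linter.unusedSectionVars false

open Matrix

namespace Pool.Agent.Lib.MP_361a6f_ag.FL.E.LemR

variable {I : Type} [Fintype I] [DecidableEq I]

/-- a matrix that is injective on the vectors supported on `p` and maps them to vectors supported
on `q` -/
theorem card_le_of_inj (A : Matrix I I ℂ) (p q : I → Prop)
    (hs : ∀ m n, A m n ≠ 0 → p n → q m)
    (hi : ∀ v : I → ℂ, (∀ n, ¬ p n → v n = 0) → A *ᵥ v = 0 → v = 0) :
    Nat.card {n // p n} ≤ Nat.card {m // q m} := by
  classical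
  let ext : ({n // p n} → ℂ) →ₗ[ℂ] (I → ℂ) :=
    { toFun := fun v n => if h : p n then v ⟨n, h⟩ else 0
      map_add' := by
        intro v w
        funext n
        by_cases h : p n
        · simp [h]
        · simp [h]
      map_smul' := by
        intro c v
        funext n
        by_cases h : p n
        · simp [h]
        · simp [h] }
  let f : ({n // p n} → ℂ) →ₗ[ℂ] ({m // q m} → ℂ) :=
    { toFun := fun v m => (A *ᵥ ext v) m.1
      map_add' := by
        intro v w
        funext m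
        simp only [map_add, Matrix.mulVec_add, Pi.add_apply]
      map_smul' := by
        intro c v
        funext m
        simp only [map_smul, Matrix.mulVec_smul, Pi.smul_apply, RingHom.id_apply] }
  have hext : ∀ v n, ¬ p n → ext v n = 0 := by
    intro v n hn
    show (if h : p n then v ⟨n, h⟩ else 0) = 0
    rw [dif_neg hn]
  have hf : Function.Injective f := by
    rw [← LinearMap.ker_eq_bot, LinearMap.ker_eq_bot']
    intro v hv
    have h1 : A *ᵥ ext v = 0 := by
      funext m
      by_cases hm : q m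
      · exact congrFun hv ⟨m, hm⟩
      · rw [Pi.zero_apply, Matrix.mulVec, dotProduct]
        refine Finset.sum_eq_zero fun n _ => ?_
        by_cases hn : p n
        · by_cases h0 : A m n = 0
          · rw [h0, zero_mul]
          · exact absurd (hs m n h0 hn) hm
        · rw [hext v n hn, mul_zero]
    have h2 := hi _ (hext v) h1
    funext n
    have h3 := congrFun h2 n.1
    have h4 : ext v n.1 = v n := by
      show (if h : p n.1 then v ⟨n.1, h⟩ else 0) = v n
      rw [dif_pos n.2]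
    rw [h4] at h3
    exact h3
  have h1 := LinearMap.finrank_le_finrank_of_injective hf
  rw [Module.finrank_fintype_fun_eq_card, Module.finrank_fintype_fun_eq_card] at h1
  rw [Nat.card_eq_fintype_card, Nat.card_eq_fintype_card]
  exact h1

variable {S : Submodule ℂ (Matrix I I ℂ)} {k : I → ℂ}

/-- RAISE: `x*` is injective on vectors supported on letters with positive entries of `[x, x*]` -/
theorem inj_star (hS : Sit S k) {x : Matrix I I ℂ} {α : (I → ℂ) → ℂ} {c : ℂ}
    (hx : Hom S k x α c) {v : I → ℂ} (hv : ∀ n, v n ≠ 0 → 0 < (tt x n).re)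
    (h0 : xᴴ *ᵥ v = 0) : v = 0 := by
  have h1 : star v ⬝ᵥ ((x * xᴴ - xᴴ * x) *ᵥ v) = - (star (x *ᵥ v) ⬝ᵥ (x *ᵥ v)) := by
    rw [Matrix.sub_mulVec, ← Matrix.mulVec_mulVec, h0, Matrix.mulVec_zero, zero_sub,
      dotProduct_neg, ← Matrix.mulVec_mulVec, Matrix.dotProduct_mulVec, Matrix.star_mulVec]
  rw [diag_tt hS hx] at h1
  have h2 : star v ⬝ᵥ (diagonal (tt x) *ᵥ v) = ((∑ n, (tt x n).re * ‖v n‖ ^ 2 : ℝ) : ℂ) := by
    rw [dotProduct]
    push_cast
    refine Finset.sum_congr rfl fun n _ => ?_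
    rw [Matrix.mulVec_diagonal, Pi.star_apply]
    have h3 : tt x n = ((tt x n).re : ℂ) := by
      rw [tt_eq, Complex.ofReal_re]
    have h4 : star (v n) * v n = ((‖v n‖ ^ 2 : ℝ) : ℂ) := by
      rw [Complex.star_def, Complex.conj_mul']
      push_cast
      rfl
    calc star (v n) * (tt x n * v n) = tt x n * (star (v n) * v n) := by ring
      _ = ((tt x n).re : ℂ) * ((‖v n‖ ^ 2 : ℝ) : ℂ) := by rw [h4, ← h3]
      _ = _ := by push_cast; rfl
  have h3 : star (x *ᵥ v) ⬝ᵥ (x *ᵥ v) = ((∑ n, ‖(x *ᵥ v) n‖ ^ 2 : ℝ) : ℂ) := by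
    rw [dotProduct]
    push_cast
    refine Finset.sum_congr rfl fun n _ => ?_
    rw [Pi.star_apply, Complex.star_def, Complex.conj_mul']
  rw [h2, h3, ← Complex.ofReal_neg] at h1
  have h4 : (∑ n, (tt x n).re * ‖v n‖ ^ 2 : ℝ) = - ∑ n, ‖(x *ᵥ v) n‖ ^ 2 :=
    Complex.ofReal_injective h1
  have h5 : 0 ≤ ∑ n, ‖(x *ᵥ v) n‖ ^ 2 := Finset.sum_nonneg fun n _ => by positivity
  have h6 : ∀ n ∈ Finset.univ, 0 ≤ (tt x n).re * ‖v n‖ ^ 2 := by
    intro n _
    by_cases hn : v n = 0
    · simp [hn]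
    · exact mul_nonneg (hv n hn).le (by positivity)
  have h7 : ∑ n, (tt x n).re * ‖v n‖ ^ 2 = 0 :=
    le_antisymm (by linarith) (Finset.sum_nonneg h6)
  funext n
  by_contra hn
  have h8 := (Finset.sum_eq_zero_iff_of_nonneg h6).1 h7 n (Finset.mem_univ n)
  have h9 : 0 < (tt x n).re * ‖v n‖ ^ 2 := mul_pos (hv n hn) (by positivity)
  linarith

/-- the entries of `[x, x*]` depend on the weight only -/
theorem tt_of_wt (hS : Sit S k) {x : Matrix I I ℂ} {α : (I → ℂ) → ℂ} {c : ℂ}
    (hx : Hom S k x α c) {δ : (I → ℂ) → ℂ} {i m : I}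
    (hm : ∀ T, diagonal T ∈ S → T m = T i - δ T) (hδ : δ (tt x) = 0) : tt x m = tt x i := by
  rw [hm _ (mem_tt hS hx), hδ, sub_zero]

/-- the letters of the weight `T_i - δ` -/
def Wt (S : Submodule ℂ (Matrix I I ℂ)) (i : I) (δ : (I → ℂ) → ℂ) (m : I) : Prop :=
  ∀ T, diagonal T ∈ S → T m = T i - δ T

/-- `x*` maps the weight space of `T_i - δ` injectively to that of `T_i - δ - α` -/
theorem card_wt (hS : Sit S k) {x : Matrix I I ℂ} {α : (I → ℂ) → ℂ} {c : ℂ}
    (hx : Hom S k x α c) {δ : (I → ℂ) → ℂ} {i : I} (hi : 0 < (tt x i).re)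
    (hδ : δ (tt x) = 0) :
    Nat.card {m // Wt S i δ m} ≤ Nat.card {m // Wt S i (fun T => δ T + α T) m} := by
  refine card_le_of_inj xᴴ _ _ ?_ ?_
  · intro m n h0 hn T hT
    have h1 : x n m ≠ 0 := by
      intro h2
      apply h0
      rw [Matrix.conjTranspose_apply, h2, star_zero]
    have h2 := hx.wt n m h1 T hT
    have h3 := hn T hT
    linear_combination h3 - h2
  · intro v hv h0
    refine inj_star hS hx (fun n hn => ?_) h0
    by_cases h1 : Wt S i δ n
    · rw [tt_of_wt hS hx h1 hδ]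
      exact hi
    · exact absurd (hv n h1) hn

/-- the value of the type of `x` on `[x, x*]` does not vanish -/
theorem type_tt_ne (hS : Sit S k) {x : Matrix I I ℂ} {α : (I → ℂ) → ℂ} {c : ℂ}
    (hx : Hom S k x α c) {i : I} (hi : 0 < (tt x i).re) : α (tt x) ≠ 0 := by
  intro h0
  have h1 := sum_tt hx (mem_tt hS hx)
  rw [h0, zero_mul] at h1
  have h2 : ∑ l, tt x l * tt x l = ((∑ l, (tt x l).re * (tt x l).re : ℝ) : ℂ) := by
    push_cast
    refine Finset.sum_congr rfl fun l _ => ?_
    have h3 : tt x l = ((tt x l).re : ℂ) := by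
      rw [tt_eq, Complex.ofReal_re]
    rw [← h3]
  rw [h2] at h1
  have h3 : (∑ l, (tt x l).re * (tt x l).re : ℝ) = 0 := Complex.ofReal_eq_zero.1 h1
  have h4 := (Finset.sum_eq_zero_iff_of_nonneg fun l _ => mul_self_nonneg _).1 h3 i
    (Finset.mem_univ i)
  have h5 := mul_self_eq_zero.1 h4
  linarith

/-- the weight `T_i` has at least two letters -/
theorem two_letters (hS : Sit S k) {P : Matrix I I ℂ}
    (hP : ∀ A ∈ S, Aᵀ * P + P * A = 0) (hsk : Pᵀ = -P) (hu : IsUnit P)
    {x y : Matrix I I ℂ} {α β : (I → ℂ) → ℂ} {c d : ℂ} (hx : Hom S k x α c)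
    (hy : Hom S k y β d) (hxy : x * y = y * x) (hβ : β (tt x) = 0) {i : I}
    (hxi : 0 < (tt x i).re) (hyi : 0 < (tt y i).re)
    (h2 : ∀ T, diagonal T ∈ S → T i + T i = α T + β T) :
    ∃ m, m ≠ i ∧ Wt S i (fun _ => 0) m := by
  by_contra hc
  push Not at hc
  set e : I → ℂ := Pi.single i 1 with he
  have hxy' : xᴴ * yᴴ = yᴴ * xᴴ := by
    have := congrArg Matrix.conjTranspose hxy
    rw [Matrix.conjTranspose_mul, Matrix.conjTranspose_mul] at this
    exact this.symm
  -- `y* e` is supported on the weight `T_i - β`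
  have hv1 : ∀ n, (yᴴ *ᵥ e) n ≠ 0 → Wt S i β n := by
    intro n hn T hT
    rw [he, Matrix.mulVec_single_one, Matrix.col_apply, Matrix.conjTranspose_apply] at hn
    have h3 : y i n ≠ 0 := fun h0 => hn (by rw [h0, star_zero])
    have h4 := hy.wt i n h3 T hT
    linear_combination -h4
  have hv1' : yᴴ *ᵥ e ≠ 0 := by
    intro h0
    have h3 := inj_star hS hy (v := e) (fun n hn => by
      by_cases hni : n = i
      · rw [hni]
        exact hyi
      · exact absurd (Pi.single_eq_of_ne hni _) hn) h0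
    have h4 := congrFun h3 i
    rw [he, Pi.single_eq_same] at h4
    exact one_ne_zero h4
  set u : I → ℂ := xᴴ *ᵥ (yᴴ *ᵥ e) with hudef
  have hu0 : u ≠ 0 := by
    intro h0
    exact hv1' (inj_star hS hx (fun n hn => by
      rw [tt_of_wt hS hx (hv1 n hn) hβ]
      exact hxi) h0)
  have hv2 : ∀ n, u n ≠ 0 → ∀ T, diagonal T ∈ S → T n + T i = 0 := by
    intro n hn T hT
    obtain ⟨m, h3, h4⟩ : ∃ m, xᴴ n m ≠ 0 ∧ (yᴴ *ᵥ e) m ≠ 0 := by
      by_contra hcc
      push Not at hcc
      apply hn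
      rw [hudef, Matrix.mulVec, dotProduct]
      refine Finset.sum_eq_zero fun m _ => ?_
      by_cases h0 : xᴴ n m = 0
      · rw [h0, zero_mul]
      · rw [hcc m h0, mul_zero]
    have h5 := hv1 m h4 T hT
    have h6 : x m n ≠ 0 := by
      intro h0
      apply h3
      rw [Matrix.conjTranspose_apply, h0, star_zero]
    have h7 := hx.wt m n h6 T hT
    have h8 := h2 T hT
    linear_combination h5 - h7 + h8
  -- the form pairs opposite weights
  have hpair : ∀ m n, P m n ≠ 0 → ∀ T, diagonal T ∈ S → T m + T n = 0 := by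
    intro m n hmn T hT
    have h3 := congrFun (congrFun (hP _ hT) m) n
    rw [Matrix.diagonal_transpose, Matrix.add_apply, Matrix.diagonal_mul, Matrix.mul_diagonal,
      Matrix.zero_apply, mul_comm, ← mul_add] at h3
    exact (mul_eq_zero.1 h3).resolve_left hmn
  have hPu : ∀ m, (P *ᵥ u) m ≠ 0 → m = i := by
    intro m hm
    by_contra hmi
    refine hc m hmi fun T hT => ?_
    obtain ⟨n, h3, h4⟩ : ∃ n, P m n ≠ 0 ∧ u n ≠ 0 := by
      by_contra hcc
      push Not at hcc
      apply hm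
      rw [Matrix.mulVec, dotProduct]
      refine Finset.sum_eq_zero fun n _ => ?_
      by_cases h0 : P m n = 0
      · rw [h0, zero_mul]
      · rw [hcc n h0, mul_zero]
    have h5 := hpair m n h3 T hT
    have h6 := hv2 n h4 T hT
    linear_combination h5 - h6
  have hPu0 : P *ᵥ u ≠ 0 := by
    intro h0
    apply hu0
    have h3 := Matrix.mulVec_injective_of_isUnit hu
    exact h3 (by rw [h0, Matrix.mulVec_zero])
  obtain ⟨m, hm⟩ := Function.ne_iff.1 hPu0
  rw [Pi.zero_apply] at hm
  have hmi := hPu m hm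
  rw [hmi] at hm
  apply hm
  -- the alternating form
  have hA : (xᴴ * yᴴ)ᵀ * P = P * (xᴴ * yᴴ) := by
    have h3 := hP _ (hS.star _ hx.mem)
    have h4 := hP _ (hS.star _ hy.mem)
    have h5 : (xᴴ)ᵀ * P = -(P * xᴴ) := eq_neg_of_add_eq_zero_left h3
    have h6 : (yᴴ)ᵀ * P = -(P * yᴴ) := eq_neg_of_add_eq_zero_left h4
    rw [Matrix.transpose_mul, Matrix.mul_assoc, h5, Matrix.mul_neg, ← Matrix.mul_assoc, h6,
      Matrix.neg_mul, neg_neg, Matrix.mul_assoc, hxy']
  have h7 : (P *ᵥ u) i = (P * (xᴴ * yᴴ)) i i := by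
    rw [hudef, Matrix.mulVec_mulVec, Matrix.mulVec_mulVec, he, Matrix.mulVec_single_one,
      Matrix.col_apply, Matrix.mul_assoc]
  have h8 : (P * (xᴴ * yᴴ)) i i = - (P * (xᴴ * yᴴ)) i i := by
    have h9 : (P * (xᴴ * yᴴ)) i i = ((P * (xᴴ * yᴴ))ᵀ) i i := rfl
    have h10 : (P * (xᴴ * yᴴ))ᵀ = -(P * (xᴴ * yᴴ)) := by
      rw [Matrix.transpose_mul, hsk, Matrix.mul_neg, hA]
    conv_lhs => rw [h9, h10]
    rfl
  rw [h7]
  exact self_eq_neg.1 h8

/-- **PAR.** -/
theorem par8 (hS : Sit S k) {P : Matrix I I ℂ}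
    (hP : ∀ A ∈ S, Aᵀ * P + P * A = 0) (hsk : Pᵀ = -P) (hu : IsUnit P)
    {x y : Matrix I I ℂ} {α β : (I → ℂ) → ℂ} {c d : ℂ} (hx : Hom S k x α c)
    (hy : Hom S k y β d) (hxy : x * y = y * x) (hβ : β (tt x) = 0) (hα : α (tt y) = 0) {i : I}
    (hxi : 0 < (tt x i).re) (hyi : 0 < (tt y i).re)
    (h2 : ∀ T, diagonal T ∈ S → T i + T i = α T + β T) :
    8 ≤ Nat.card {m // (∀ T, diagonal T ∈ S → T m = T i) ∨
      (∀ T, diagonal T ∈ S → T m = T i - α T) ∨ (∀ T, diagonal T ∈ S → T m = T i - β T) ∨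
      ∀ T, diagonal T ∈ S → T m = T i - α T - β T} := by
  classical
  obtain ⟨m0, hm0, hm0'⟩ := two_letters hS hP hsk hu hx hy hxy hβ hxi hyi h2
  have n0 : 2 ≤ Nat.card {m // Wt S i (fun _ => 0) m} := by
    have hi0 : Wt S i (fun _ => 0) i := fun T _ => (sub_zero _).symm
    rw [Nat.card_eq_fintype_card]
    have h3 : Fintype.card (Fin 2) ≤ Fintype.card {m // Wt S i (fun _ => 0) m} := by
      refine Fintype.card_le_of_injective
        (fun j : Fin 2 => if j = 0 then ⟨i, hi0⟩ else ⟨m0, hm0'⟩) ?_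
      intro a b hab
      fin_cases a <;> fin_cases b <;> simp_all
    simpa using h3
  have nα : 2 ≤ Nat.card {m // Wt S i (fun T => 0 + α T) m} :=
    n0.trans (card_wt hS hx hxi rfl)
  have nβ : 2 ≤ Nat.card {m // Wt S i (fun T => 0 + β T) m} :=
    n0.trans (card_wt hS hy hyi rfl)
  have nαβ : 2 ≤ Nat.card {m // Wt S i (fun T => (0 + α T) + β T) m} :=
    nα.trans (card_wt hS hy hyi (by rw [hα, zero_add]))
  have hαne := type_tt_ne hS hx hxi
  have hβne := type_tt_ne hS hy hyi
  have mx := mem_tt hS hx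
  have my := mem_tt hS hy
  -- the four sets
  rw [Nat.card_eq_fintype_card, Fintype.card_subtype] at n0 nα nβ nαβ ⊢
  have d1 : Disjoint (Finset.univ.filter (Wt S i fun _ => 0))
      (Finset.univ.filter (Wt S i fun T => 0 + α T)) := by
    rw [Finset.disjoint_filter]
    intro m _ h3 h4
    have h5 : tt x m = tt x i - 0 := h3 _ mx
    have h6 : tt x m = tt x i - (0 + α (tt x)) := h4 _ mx
    exact hαne (by linear_combination h6 - h5)
  have d2 : Disjoint (Finset.univ.filter (Wt S i fun T => 0 + β T))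
      (Finset.univ.filter (Wt S i fun T => (0 + α T) + β T)) := by
    rw [Finset.disjoint_filter]
    intro m _ h3 h4
    have h5 : tt x m = tt x i - (0 + β (tt x)) := h3 _ mx
    have h6 : tt x m = tt x i - (0 + α (tt x) + β (tt x)) := h4 _ mx
    exact hαne (by linear_combination h6 - h5)
  have d3 : Disjoint (Finset.univ.filter (Wt S i fun _ => 0) ∪
      Finset.univ.filter (Wt S i fun T => 0 + α T))
      (Finset.univ.filter (Wt S i fun T => 0 + β T) ∪
      Finset.univ.filter (Wt S i fun T => (0 + α T) + β T)) := by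
    rw [Finset.disjoint_left]
    intro m h3 h4
    rw [Finset.mem_union, Finset.mem_filter, Finset.mem_filter] at h3 h4
    have h5 : tt y m = tt y i := by
      rcases h3 with ⟨-, h3⟩ | ⟨-, h3⟩
      · have h7 : tt y m = tt y i - 0 := h3 _ my
        rw [h7, sub_zero]
      · have h7 : tt y m = tt y i - (0 + α (tt y)) := h3 _ my
        rw [h7, hα, add_zero, sub_zero]
    have h6 : tt y m = tt y i - β (tt y) := by
      rcases h4 with ⟨-, h4⟩ | ⟨-, h4⟩
      · have h7 : tt y m = tt y i - (0 + β (tt y)) := h4 _ my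
        rw [h7, zero_add]
      · have h7 : tt y m = tt y i - (0 + α (tt y) + β (tt y)) := h4 _ my
        rw [h7, hα, zero_add, zero_add]
    exact hβne (by linear_combination h6 - h5)
  have hcard : 8 ≤ ((Finset.univ.filter (Wt S i fun _ => 0) ∪
      Finset.univ.filter (Wt S i fun T => 0 + α T)) ∪
      (Finset.univ.filter (Wt S i fun T => 0 + β T) ∪
      Finset.univ.filter (Wt S i fun T => (0 + α T) + β T))).card := by
    rw [Finset.card_union_of_disjoint d3, Finset.card_union_of_disjoint d1,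
      Finset.card_union_of_disjoint d2]
    have e0 : 2 ≤ (Finset.univ.filter (Wt S i fun _ => 0)).card := by convert n0
    have e1 : 2 ≤ (Finset.univ.filter (Wt S i fun T => 0 + α T)).card := by convert nα
    have e2 : 2 ≤ (Finset.univ.filter (Wt S i fun T => 0 + β T)).card := by convert nβ
    have e3 : 2 ≤ (Finset.univ.filter (Wt S i fun T => (0 + α T) + β T)).card := by
      convert nαβ
    omega
  refine hcard.trans (Finset.card_le_card ?_)
  intro m hm
  rw [Finset.mem_union, Finset.mem_union, Finset.mem_union, Finset.mem_filter, Finset.mem_filter,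
    Finset.mem_filter, Finset.mem_filter] at hm
  rw [Finset.mem_filter]
  refine ⟨Finset.mem_univ m, ?_⟩
  rcases hm with (⟨-, h3⟩ | ⟨-, h3⟩) | ⟨-, h3⟩ | ⟨-, h3⟩
  · refine Or.inl fun T hT => ?_
    have h7 : T m = T i - 0 := h3 T hT
    rw [h7, sub_zero]
  · refine Or.inr (Or.inl fun T hT => ?_)
    have h7 : T m = T i - (0 + α T) := h3 T hT
    rw [h7, zero_add]
  · refine Or.inr (Or.inr (Or.inl fun T hT => ?_))
    have h7 : T m = T i - (0 + β T) := h3 T hT
    rw [h7, zero_add]
  · refine Or.inr (Or.inr (Or.inr fun T hT => ?_))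
    have h7 : T m = T i - (0 + α T + β T) := h3 T hT
    rw [h7, zero_add, sub_add_eq_sub_sub]

end Pool.Agent.Lib.MP_361a6f_ag.FL.E.LemR
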