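import Pool.Agent.Lib.MP_361a6f_ag.FL.E11.LemN
import Pool.Agent.Lib.MP_361a6f_ag.FL.E11.Int
import Pool.Agent.Lib.MP_361a6f_ag.FL.E11.Par

/-!
# Theorem E11: the matrix rows in the form of `LemN`
-/

set_option autoImplicit false

open Matrix

namespace Pool.Agent.Lib.MP_361a6f_ag.FL.E11

open E E.LemR

/-- Row INT. -/
theorem intS : IntStatement := by
  intro I _ _ S k hS x α c hx l
  have hm := mem_tt hS hx
  have hsum := sum_tt hx hm
  have h1 : ∑ i, tt x i * tt x i = ((∑ j, (tt x j).re ^ 2 : ℝ) : ℂ) := by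
    push_cast
    refine Finset.sum_congr rfl fun i _ => ?_
    rw [← tt_real x i, Complex.ofReal_re]
    ring
  rw [h1] at hsum
  by_cases h0 : α (tt x) = 0
  · refine ⟨0, ?_⟩
    rw [h0, zero_mul, Complex.ofReal_eq_zero] at hsum
    have h2 := (Finset.sum_eq_zero_iff_of_nonneg fun j _ => sq_nonneg ((tt x j).re)).1 hsum l
      (Finset.mem_univ l)
    have h3 : (tt x l).re = 0 := pow_eq_zero_iff (two_ne_zero) |>.1 h2
    rw [h3]
    simp
  · obtain ⟨n, hn⟩ := int_tt hS hx hm h0 l
    refine ⟨n, ?_⟩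
    have h2 : ((2 * (tt x l).re * nrm x : ℝ) : ℂ) = ((n * ∑ j, (tt x j).re ^ 2 : ℝ) : ℂ) := by
      rw [Complex.ofReal_mul, Complex.ofReal_mul, tt_real, Complex.ofReal_mul, hsum]
      push_cast
      linear_combination (nrm x : ℂ) * hn
    exact_mod_cast h2

/-- Row PAR. -/
theorem par8S : Par8Statement := by
  intro I _ _ S k hS P hP hPt hu x y a b c d hx hy hxy h1 h2 i h3 h4 h5
  exact par8 hS hP hPt hu hx hy hxy h1 h2 h3 h4 h5

/-- **The counting lemma in the frame, from the abstract counting lemma.** -/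
theorem lemN_of (h11 : Lemma11Statement.{0, 0}) : LemNStatement := lemN h11 intS par8S

end Pool.Agent.Lib.MP_361a6f_ag.FL.E11
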