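import Pool.Agent.Lib.MP_361a6f_ag.FL.E11.Par

/-!
# Theorem EM, row PARQ: commuting root vectors inside a stable subspace

In the situation of `FL/E/LemR.lean` let `U` be a subspace that is stable under `S`, let `s` be a
list of homogeneous elements of `S` with pairwise orthogonal types, and let `θ` be a weight of `U`
on which the real diagonal matrices `[x, x*]` are positive. Then `U` has dimension at least
`2 ^ q`, and at least `2 ^ (q + 1)` if the form is non-degenerate on `U`, the elements commute,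
`q` is even and `2 θ` is the sum of the types.
-/

set_option autoImplicit false
set_option linter.unusedSectionVars false

open Matrix

namespace Pool.Agent.Lib.MP_361a6f_ag.FL.E.LemR

variable {I : Type} [Fintype I] [DecidableEq I] {S : Submodule ℂ (Matrix I I ℂ)} {k : I → ℂ}

/-- the vectors of weight `θ` -/
def wtSp (S : Submodule ℂ (Matrix I I ℂ)) (θ : (I → ℂ) → ℂ) : Submodule ℂ (I → ℂ) where
  carrier := {v | ∀ T, diagonal T ∈ S → ∀ n, v n ≠ 0 → T n = θ T}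
  add_mem' := by
    intro v w hv hw T hT n hn
    by_cases h : v n = 0
    · refine hw T hT n fun h' => hn ?_
      rw [Pi.add_apply, h, h', add_zero]
    · exact hv T hT n h
  zero_mem' := fun T hT n hn => absurd rfl hn
  smul_mem' := by
    intro c v hv T hT n hn
    exact hv T hT n fun h => hn (by rw [Pi.smul_apply, h, smul_zero])

theorem mem_wtSp {θ : (I → ℂ) → ℂ} {v : I → ℂ} :
    v ∈ wtSp S θ ↔ ∀ T, diagonal T ∈ S → ∀ n, v n ≠ 0 → T n = θ T := Iff.rfl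

theorem wtSp_diag {θ : (I → ℂ) → ℂ} {v : I → ℂ} (hv : v ∈ wtSp S θ) {T : I → ℂ}
    (hT : diagonal T ∈ S) : diagonal T *ᵥ v = θ T • v := by
  funext n
  rw [Matrix.mulVec_diagonal, Pi.smul_apply, smul_eq_mul]
  by_cases h : v n = 0
  · rw [h, mul_zero, mul_zero]
  · rw [hv T hT n h]

/-- `x*` lowers the weight -/
theorem wtSp_star {x : Matrix I I ℂ} {α : (I → ℂ) → ℂ} {c : ℂ} (hx : Hom S k x α c)
    {θ : (I → ℂ) → ℂ} {v : I → ℂ} (hv : v ∈ wtSp S θ) :
    xᴴ *ᵥ v ∈ wtSp S fun T => θ T - α T := by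
  intro T hT n hn
  obtain ⟨m, h3, h4⟩ : ∃ m, xᴴ n m ≠ 0 ∧ v m ≠ 0 := by
    by_contra hcc
    push Not at hcc
    apply hn
    rw [Matrix.mulVec, dotProduct]
    refine Finset.sum_eq_zero fun m _ => ?_
    by_cases h0 : xᴴ n m = 0
    · rw [h0, zero_mul]
    · rw [hcc m h0, mul_zero]
  have h5 := hv T hT m h4
  have h6 : x m n ≠ 0 := by
    intro h0
    apply h3
    rw [Matrix.conjTranspose_apply, h0, star_zero]
  have h7 := hx.wt m n h6 T hT
  linear_combination h5 - h7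

/-- RAISE inside `wtSp` -/
theorem wtSp_inj (hS : Sit S k) {x : Matrix I I ℂ} {α : (I → ℂ) → ℂ} {c : ℂ}
    (hx : Hom S k x α c) {θ : (I → ℂ) → ℂ} (hθ : 0 < (θ (tt x)).re) {v : I → ℂ}
    (hv : v ∈ wtSp S θ) (h0 : xᴴ *ᵥ v = 0) : v = 0 := by
  refine inj_star hS hx (fun n hn => ?_) h0
  rw [hv _ (mem_tt hS hx) n hn]
  exact hθ

theorem type_ne_of_wt (hS : Sit S k) {x : Matrix I I ℂ} {α : (I → ℂ) → ℂ} {c : ℂ}
    (hx : Hom S k x α c) {θ : (I → ℂ) → ℂ} (hθ : 0 < (θ (tt x)).re) {v : I → ℂ}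
    (hv : v ∈ wtSp S θ) (hv0 : v ≠ 0) : α (tt x) ≠ 0 := by
  obtain ⟨n, hn⟩ := Function.ne_iff.1 hv0
  refine type_tt_ne hS hx (i := n) ?_
  rw [hv _ (mem_tt hS hx) n hn]
  exact hθ

/-- pairwise orthogonal types -/
def Orth (p q : Tri I) : Prop := p.2.1 (tt q.1) = 0 ∧ q.2.1 (tt p.1) = 0

/-- **The box.** -/
theorem box (hS : Sit S k) (U : Submodule ℂ (I → ℂ)) (hU : ∀ A ∈ S, ∀ v ∈ U, A *ᵥ v ∈ U) :
    ∀ (s : List (Tri I)), (∀ p ∈ s, Hom S k p.1 p.2.1 p.2.2) → s.Pairwise Orth →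
    ∀ θ : (I → ℂ) → ℂ, (∀ p ∈ s, 0 < (θ (tt p.1)).re) →
    ∃ V : Submodule ℂ (I → ℂ), V ≤ U ∧
      2 ^ s.length * Module.finrank ℂ ↥(U ⊓ wtSp S θ) ≤ Module.finrank ℂ V ∧
      ∀ T, diagonal T ∈ S → (∀ p ∈ s, p.2.1 T = 0) → ∀ v ∈ V, diagonal T *ᵥ v = θ T • v := by
  intro s
  induction s with
  | nil =>
    intro _ _ θ _
    exact ⟨U ⊓ wtSp S θ, inf_le_left, by simp, fun T hT _ v hv => wtSp_diag hv.2 hT⟩
  | cons p s ih =>
    intro hs ho θ hθ
    rw [List.pairwise_cons] at ho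
    have hs' : ∀ q ∈ s, Hom S k q.1 q.2.1 q.2.2 := fun q hq => hs q (List.mem_cons_of_mem _ hq)
    have hp := hs p List.mem_cons_self
    have hθp := hθ p List.mem_cons_self
    by_cases hbot : U ⊓ wtSp S θ = ⊥
    · refine ⟨⊥, bot_le, ?_, ?_⟩
      · rw [hbot, finrank_bot, mul_zero]
      · intro T _ _ v hv
        rw [(Submodule.mem_bot ℂ).1 hv, Matrix.mulVec_zero, smul_zero]
    obtain ⟨v0, hv0, hne⟩ := Submodule.exists_mem_ne_zero_of_ne_bot hbot
    have hα := type_ne_of_wt hS hp hθp hv0.2 hne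
    obtain ⟨V0, h1, h2, h3⟩ := ih hs' ho.2 θ fun q hq => hθ q (List.mem_cons_of_mem _ hq)
    obtain ⟨V1, h1', h2', h3'⟩ := ih hs' ho.2 (fun T => θ T - p.2.1 T) fun q hq => by
      rw [(ho.1 q hq).1, sub_zero]
      exact hθ q (List.mem_cons_of_mem _ hq)
    have hmt := mem_tt hS hp
    have hdis : V0 ⊓ V1 = ⊥ := by
      rw [eq_bot_iff]
      intro v hv
      rw [Submodule.mem_bot]
      have e0 := h3 _ hmt (fun q hq => (ho.1 q hq).2) v hv.1
      have e1 := h3' _ hmt (fun q hq => (ho.1 q hq).2) v hv.2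
      rw [e0, sub_smul] at e1
      have e2 : p.2.1 (tt p.1) • v = 0 := by
        have := sub_eq_zero.2 e1
        rwa [sub_sub_cancel] at this
      exact (smul_eq_zero.1 e2).resolve_left hα
    have hle : Module.finrank ℂ ↥(U ⊓ wtSp S θ) ≤
        Module.finrank ℂ ↥(U ⊓ wtSp S fun T => θ T - p.2.1 T) := by
      let f : ↥(U ⊓ wtSp S θ) →ₗ[ℂ] ↥(U ⊓ wtSp S fun T => θ T - p.2.1 T) :=
        ((Matrix.toLin' p.1ᴴ).comp (U ⊓ wtSp S θ).subtype).codRestrict _ fun v =>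
          ⟨hU _ (hS.star _ hp.mem) _ v.2.1, wtSp_star hp v.2.2⟩
      refine LinearMap.finrank_le_finrank_of_injective (f := f) ?_
      rw [← LinearMap.ker_eq_bot, LinearMap.ker_eq_bot']
      intro v hv
      have e0 : p.1ᴴ *ᵥ (v : I → ℂ) = 0 := congrArg Subtype.val hv
      exact Subtype.ext (wtSp_inj hS hp hθp v.2.2 e0)
    refine ⟨V0 ⊔ V1, sup_le h1 h1', ?_, ?_⟩
    · have e0 := Submodule.finrank_sup_add_finrank_inf_eq V0 V1
      rw [hdis, finrank_bot, add_zero] at e0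
      rw [e0, List.length_cons, pow_succ]
      have e1 := Nat.mul_le_mul_left (2 ^ s.length) hle
      calc 2 ^ s.length * 2 * Module.finrank ℂ ↥(U ⊓ wtSp S θ)
          = 2 ^ s.length * Module.finrank ℂ ↥(U ⊓ wtSp S θ)
            + 2 ^ s.length * Module.finrank ℂ ↥(U ⊓ wtSp S θ) := by ring
        _ ≤ Module.finrank ℂ V0 + Module.finrank ℂ V1 := add_le_add h2 (e1.trans h2')
    · intro T hT hz v hv
      obtain ⟨a, ha, b, hb, rfl⟩ := Submodule.mem_sup.1 hv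
      rw [Matrix.mulVec_add, h3 T hT (fun q hq => hz q (List.mem_cons_of_mem _ hq)) a ha,
        h3' T hT (fun q hq => hz q (List.mem_cons_of_mem _ hq)) b hb,
        hz p List.mem_cons_self, sub_zero, smul_add]

/-- `U` has dimension at least `2 ^ q` -/
theorem box_card (hS : Sit S k) (U : Submodule ℂ (I → ℂ)) (hU : ∀ A ∈ S, ∀ v ∈ U, A *ᵥ v ∈ U)
    (s : List (Tri I)) (hs : ∀ p ∈ s, Hom S k p.1 p.2.1 p.2.2) (ho : s.Pairwise Orth)
    (θ : (I → ℂ) → ℂ) (hθ : ∀ p ∈ s, 0 < (θ (tt p.1)).re) {v : I → ℂ} (hv : v ∈ U)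
    (hw : v ∈ wtSp S θ) (h0 : v ≠ 0) : 2 ^ s.length ≤ Module.finrank ℂ U := by
  obtain ⟨V, h1, h2, -⟩ := box hS U hU s hs ho θ hθ
  have h3 : 0 < Module.finrank ℂ ↥(U ⊓ wtSp S θ) := by
    refine Module.finrank_pos_iff_exists_ne_zero.2 ⟨⟨v, hv, hw⟩, fun h => h0 ?_⟩
    exact congrArg Subtype.val h
  calc 2 ^ s.length ≤ 2 ^ s.length * Module.finrank ℂ ↥(U ⊓ wtSp S θ) :=
        Nat.le_mul_of_pos_right _ h3
    _ ≤ Module.finrank ℂ V := h2
    _ ≤ Module.finrank ℂ U := Submodule.finrank_mono h1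

/-- the product of the adjoints of the elements of the list -/
def low (s : List (Tri I)) : Matrix I I ℂ := (s.map fun p => p.1ᴴ).prod

theorem low_mem (hS : Sit S k) (U : Submodule ℂ (I → ℂ)) (hU : ∀ A ∈ S, ∀ v ∈ U, A *ᵥ v ∈ U) :
    ∀ (s : List (Tri I)), (∀ p ∈ s, Hom S k p.1 p.2.1 p.2.2) → s.Pairwise Orth →
    ∀ θ : (I → ℂ) → ℂ, (∀ p ∈ s, 0 < (θ (tt p.1)).re) → ∀ v ∈ U, v ∈ wtSp S θ → v ≠ 0 →
    low s *ᵥ v ∈ U ∧ low s *ᵥ v ∈ wtSp S (fun T => θ T - (s.map fun p => p.2.1 T).sum) ∧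
      low s *ᵥ v ≠ 0 := by
  intro s
  induction s with
  | nil =>
    intro _ _ θ _ v hv hw h0
    simp only [low, List.map_nil, List.prod_nil, Matrix.one_mulVec, List.sum_nil, sub_zero]
    exact ⟨hv, hw, h0⟩
  | cons p s ih =>
    intro hs ho θ hθ v hv hw h0
    rw [List.pairwise_cons] at ho
    have hs' : ∀ q ∈ s, Hom S k q.1 q.2.1 q.2.2 := fun q hq => hs q (List.mem_cons_of_mem _ hq)
    have hp := hs p List.mem_cons_self
    obtain ⟨h1, h2, h3⟩ := ih hs' ho.2 θ (fun q hq => hθ q (List.mem_cons_of_mem _ hq)) v hv hw h0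
    have e : low (p :: s) *ᵥ v = p.1ᴴ *ᵥ (low s *ᵥ v) := by
      rw [low, List.map_cons, List.prod_cons, ← Matrix.mulVec_mulVec]
      rfl
    rw [e]
    refine ⟨hU _ (hS.star _ hp.mem) _ h1, ?_, fun h4 => h3 ?_⟩
    · have h5 := wtSp_star hp h2
      intro T hT n hn
      rw [h5 T hT n hn]
      simp only [List.map_cons, List.sum_cons]
      ring
    · refine wtSp_inj hS hp ?_ h2 h4
      have h6 : (s.map fun q => q.2.1 (tt p.1)).sum = 0 := by
        refine List.sum_eq_zero fun x hx => ?_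
        obtain ⟨q, hq, rfl⟩ := List.mem_map.1 hx
        exact (ho.1 q hq).2
      rw [h6, sub_zero]
      exact hθ p List.mem_cons_self

/-- the product of commuting elements that are antisymmetric for the form -/
theorem low_form {P : Matrix I I ℂ} :
    ∀ s : List (Matrix I I ℂ), (∀ y ∈ s, yᵀ * P + P * y = 0) → s.Pairwise Commute →
    s.prodᵀ * P = (-1 : ℂ) ^ s.length • (P * s.prod) := by
  intro s
  induction s with
  | nil =>
    intro _ _
    simp
  | cons y s ih =>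
    intro hs hc
    rw [List.pairwise_cons] at hc
    have h1 := ih (fun z hz => hs z (List.mem_cons_of_mem _ hz)) hc.2
    have h2 : yᵀ * P = -(P * y) := eq_neg_of_add_eq_zero_left (hs y List.mem_cons_self)
    have h3 : Commute y s.prod := Commute.list_prod_right _ _ hc.1
    rw [List.prod_cons, Matrix.transpose_mul, Matrix.mul_assoc, h2, Matrix.mul_neg,
      ← Matrix.mul_assoc, h1, List.length_cons, pow_succ, Matrix.smul_mul, Matrix.mul_assoc,
      ← h3.eq, mul_neg_one, neg_smul]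

/-- the weight space has dimension at least `2` -/
theorem two_dim (hS : Sit S k) {P : Matrix I I ℂ} (hP : ∀ A ∈ S, Aᵀ * P + P * A = 0)
    (hsk : Pᵀ = -P) (U : Submodule ℂ (I → ℂ)) (hU : ∀ A ∈ S, ∀ v ∈ U, A *ᵥ v ∈ U)
    (hnd : ∀ v ∈ U, (∀ w ∈ U, w ⬝ᵥ (P *ᵥ v) = 0) → v = 0)
    (s : List (Tri I)) (hs : ∀ p ∈ s, Hom S k p.1 p.2.1 p.2.2) (ho : s.Pairwise Orth)
    (hc : s.Pairwise fun p q => p.1 * q.1 = q.1 * p.1) (hev : Even s.length)
    (θ : (I → ℂ) → ℂ) (hθ : ∀ p ∈ s, 0 < (θ (tt p.1)).re)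
    (h2 : ∀ T, diagonal T ∈ S → θ T + θ T = (s.map fun p => p.2.1 T).sum)
    {v : I → ℂ} (hv : v ∈ U) (hw : v ∈ wtSp S θ) (h0 : v ≠ 0) :
    2 ≤ Module.finrank ℂ ↥(U ⊓ wtSp S θ) := by
  classical
  obtain ⟨hz1, hz2, hz3⟩ := low_mem hS U hU s hs ho θ hθ v hv hw h0
  set z : I → ℂ := low s *ᵥ v with hz
  -- the alternating form
  have hlow : (low s)ᵀ * P = P * low s := by
    have h3 := low_form (P := P) (s.map fun p => p.1ᴴ)
      (fun y hy => by
        obtain ⟨p, hp, rfl⟩ := List.mem_map.1 hy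
        exact hP _ (hS.star _ (hs p hp).mem))
      (by
        rw [List.pairwise_map]
        refine hc.imp fun {p q} hpq => ?_
        show p.1ᴴ * q.1ᴴ = q.1ᴴ * p.1ᴴ
        rw [← Matrix.conjTranspose_mul, ← Matrix.conjTranspose_mul, hpq])
    rw [List.length_map, hev.neg_one_pow, one_smul] at h3
    exact h3
  have halt : v ⬝ᵥ (P *ᵥ z) = 0 := by
    have e1 : (P * low s)ᵀ = -(P * low s) := by
      rw [Matrix.transpose_mul, hsk, Matrix.mul_neg, hlow]
    have e2 : v ⬝ᵥ ((P * low s) *ᵥ v) = -(v ⬝ᵥ ((P * low s) *ᵥ v)) := by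
      conv_lhs => rw [Matrix.dotProduct_mulVec, ← Matrix.mulVec_transpose, e1, Matrix.neg_mulVec,
        neg_dotProduct, dotProduct_comm]
    rw [hz, Matrix.mulVec_mulVec]
    exact self_eq_neg.1 e2
  -- a vector of `U` that pairs with `z`
  obtain ⟨w, hwU, hwz⟩ : ∃ w ∈ U, w ⬝ᵥ (P *ᵥ z) ≠ 0 := by
    by_contra hcon
    push Not at hcon
    exact hz3 (hnd z hz1 hcon)
  -- its component of weight `θ`
  obtain ⟨i, hi⟩ := Function.ne_iff.1 h0
  have hiw : ∀ T, diagonal T ∈ S → T i = θ T := fun T hT => hw T hT i hi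
  let A : Subalgebra ℂ (I → ℂ) :=
    { carrier := {m | (∀ q r, (∀ T, diagonal T ∈ S → T q = T r) → m q = m r) ∧
        ∀ x ∈ U, diagonal m *ᵥ x ∈ U}
      mul_mem' := by
        rintro m n ⟨h3, h4⟩ ⟨h5, h6⟩
        refine ⟨fun q r hqr => ?_, fun x hx => ?_⟩
        · rw [Pi.mul_apply, Pi.mul_apply, h3 q r hqr, h5 q r hqr]
        · have e : diagonal (m * n) *ᵥ x = diagonal m *ᵥ (diagonal n *ᵥ x) := by
            rw [Matrix.mulVec_mulVec, Matrix.diagonal_mul_diagonal]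
            rfl
          rw [e]
          exact h4 _ (h6 x hx)
      one_mem' := ⟨fun _ _ _ => rfl, fun x hx => by
        have e : diagonal (1 : I → ℂ) *ᵥ x = x := by
          funext n
          rw [Matrix.mulVec_diagonal, Pi.one_apply, one_mul]
        rw [e]
        exact hx⟩
      add_mem' := by
        rintro m n ⟨h3, h4⟩ ⟨h5, h6⟩
        refine ⟨fun q r hqr => ?_, fun x hx => ?_⟩
        · rw [Pi.add_apply, Pi.add_apply, h3 q r hqr, h5 q r hqr]
        · have e : diagonal (m + n) *ᵥ x = diagonal m *ᵥ x + diagonal n *ᵥ x := by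
            rw [← Matrix.add_mulVec, Matrix.diagonal_add]
            rfl
          rw [e]
          exact U.add_mem (h4 x hx) (h6 x hx)
      zero_mem' := ⟨fun _ _ _ => rfl, fun x hx => by
        have e : diagonal (0 : I → ℂ) *ᵥ x = 0 := by
          funext n
          rw [Matrix.mulVec_diagonal]
          simp
        rw [e]
        exact U.zero_mem⟩
      algebraMap_mem' := by
        intro r
        refine ⟨fun _ _ _ => rfl, fun x hx => ?_⟩
        have e : diagonal (algebraMap ℂ (I → ℂ) r) *ᵥ x = r • x := by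
          funext n
          rw [Matrix.mulVec_diagonal]
          rfl
        rw [e]
        exact U.smul_mem r hx }
  have hTA : ∀ T, diagonal T ∈ S → T ∈ A := fun T hT =>
    ⟨fun q r hqr => hqr T hT, fun x hx => hU _ hT x hx⟩
  obtain ⟨e, heA, he1, he2⟩ := exists_bump A i
  have hew : diagonal e *ᵥ w ∈ wtSp S θ := by
    intro T hT n hn
    rw [Matrix.mulVec_diagonal] at hn
    rw [he2 n (left_ne_zero_of_mul hn) T (hTA T hT), hiw T hT]
  -- the form pairs opposite weights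
  have hpair : ∀ m n, P m n ≠ 0 → ∀ T, diagonal T ∈ S → T m + T n = 0 := by
    intro m n hmn T hT
    have h3 := congrFun (congrFun (hP _ hT) m) n
    rw [Matrix.diagonal_transpose, Matrix.add_apply, Matrix.diagonal_mul, Matrix.mul_diagonal,
      Matrix.zero_apply, mul_comm, ← mul_add] at h3
    exact (mul_eq_zero.1 h3).resolve_left hmn
  have hPz : ∀ m, (P *ᵥ z) m ≠ 0 → e m = 1 := by
    intro m hm
    obtain ⟨n, h3, h4⟩ : ∃ n, P m n ≠ 0 ∧ z n ≠ 0 := by
      by_contra hcc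
      push Not at hcc
      apply hm
      rw [Matrix.mulVec, dotProduct]
      refine Finset.sum_eq_zero fun n _ => ?_
      by_cases h0 : P m n = 0
      · rw [h0, zero_mul]
      · rw [hcc n h0, mul_zero]
    rw [← he1]
    refine heA.1 m i fun T hT => ?_
    have h5 := hpair m n h3 T hT
    have h6 := hz2 T hT n h4
    have h7 := h2 T hT
    rw [hiw T hT]
    linear_combination h5 - h6 - h7
  have hdot : (diagonal e *ᵥ w) ⬝ᵥ (P *ᵥ z) = w ⬝ᵥ (P *ᵥ z) := by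
    rw [dotProduct, dotProduct]
    refine Finset.sum_congr rfl fun m _ => ?_
    rw [Matrix.mulVec_diagonal]
    by_cases h3 : (P *ᵥ z) m = 0
    · rw [h3, mul_zero, mul_zero]
    · rw [hPz m h3, one_mul]
  by_contra hlt
  have hle : Module.finrank ℂ ↥(U ⊓ wtSp S θ) ≤ 1 := by omega
  obtain ⟨v0, hv0⟩ := finrank_le_one_iff.1 hle
  obtain ⟨c, hc1⟩ := hv0 ⟨v, hv, hw⟩
  obtain ⟨d, hd1⟩ := hv0 ⟨diagonal e *ᵥ w, heA.2 w hwU, hew⟩
  have hc2 : c • (v0 : I → ℂ) = v := congrArg Subtype.val hc1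
  have hd2 : d • (v0 : I → ℂ) = diagonal e *ᵥ w := congrArg Subtype.val hd1
  have hc0 : c ≠ 0 := by
    rintro rfl
    rw [zero_smul] at hc2
    exact h0 hc2.symm
  apply hwz
  rw [← hdot, ← hd2]
  have h5 : (v0 : I → ℂ) = c⁻¹ • v := by
    rw [← hc2, smul_smul, inv_mul_cancel₀ hc0, one_smul]
  rw [h5, smul_smul, smul_dotProduct, halt, smul_zero]

/-- **PARQ.** -/
theorem parQ (hS : Sit S k) {P : Matrix I I ℂ} (hP : ∀ A ∈ S, Aᵀ * P + P * A = 0)
    (hsk : Pᵀ = -P) (U : Submodule ℂ (I → ℂ)) (hU : ∀ A ∈ S, ∀ v ∈ U, A *ᵥ v ∈ U)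
    (hnd : ∀ v ∈ U, (∀ w ∈ U, w ⬝ᵥ (P *ᵥ v) = 0) → v = 0)
    (s : List (Tri I)) (hs : ∀ p ∈ s, Hom S k p.1 p.2.1 p.2.2) (ho : s.Pairwise Orth)
    (hc : s.Pairwise fun p q => p.1 * q.1 = q.1 * p.1) (hev : Even s.length)
    (θ : (I → ℂ) → ℂ) (hθ : ∀ p ∈ s, 0 < (θ (tt p.1)).re)
    (h2 : ∀ T, diagonal T ∈ S → θ T + θ T = (s.map fun p => p.2.1 T).sum)
    {v : I → ℂ} (hv : v ∈ U) (hw : v ∈ wtSp S θ) (h0 : v ≠ 0) :
    2 ^ (s.length + 1) ≤ Module.finrank ℂ U := by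
  obtain ⟨V, h1, h3, -⟩ := box hS U hU s hs ho θ hθ
  have h4 := two_dim hS hP hsk U hU hnd s hs ho hc hev θ hθ h2 hv hw h0
  calc 2 ^ (s.length + 1) = 2 ^ s.length * 2 := pow_succ _ _
    _ ≤ 2 ^ s.length * Module.finrank ℂ ↥(U ⊓ wtSp S θ) := Nat.mul_le_mul_left _ h4
    _ ≤ Module.finrank ℂ V := h3
    _ ≤ Module.finrank ℂ U := Submodule.finrank_mono h1

end Pool.Agent.Lib.MP_361a6f_ag.FL.E.LemR
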