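import Pool.Agent.Lib.MP_361a6f_ag.FL.E11.DefsW
import Pool.Agent.Lib.MP_361a6f_ag.FL.E5.W5X

/-!
# Theorem E11: the assembly (row W11)
-/

set_option autoImplicit false
set_option linter.unusedSectionVars false

open Filter Topology

namespace Pool.Agent.Lib.MP_361a6f_ag.FL.E

namespace Weleven

variable {I Λ : Type} [Fintype I] [DecidableEq I] [DecidableEq Λ] {D : Dat I Λ}
  {At : (L : ℕ) → Ten I L → Prop} {Γ : Set (Matrix I I ℂ)}

/-- the good words of even length -/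
theorem calc_even {I : Type} {τ : I → I} {a : I → ℂ} {G : ℤˣ → List I → Prop}
    (c : Calc τ a G) : Calc τ a (fun ε v => G ε v ∧ Even v.length) := by
  refine ⟨⟨c.nil, by simp⟩, ?_, ?_, ?_, ?_, ?_, ?_, ?_⟩
  · rintro ε v w hvw ⟨h1, h2⟩
    exact ⟨c.perm ε v w hvw h1, by rwa [← hvw.length_eq]⟩
  · rintro ε δ v w ⟨h1, h2⟩ ⟨h3, h4⟩
    exact ⟨c.app ε δ v w h1 h3, by rw [List.length_append]; exact h2.add h4⟩
  · rintro ε v ⟨h1, h2⟩
    exact ⟨c.neg ε v h1, by rwa [List.length_map]⟩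
  · intro i
    exact ⟨c.pair i, by simp⟩
  · rintro ε v w hvw ⟨h1, h2⟩
    refine ⟨c.blk ε v w hvw h1, ?_⟩
    have h3 := congrArg List.length hvw
    rw [List.length_map, List.length_map] at h3
    rwa [← h3]
  · rintro ε i v ⟨h1, h2⟩
    refine ⟨c.can ε i v h1, ?_⟩
    rw [List.length_cons, List.length_cons] at h2
    have h3 : Even (v.length + 2) := h2
    exact (Nat.even_add.1 h3).2 even_two
  · rintro ε v hv ⟨h1, -⟩
    exact c.four ε v hv h1

theorem psi_transpose (ho : ∀ i, D.odd (D.typ i)) : (Psi D).transpose = -(Psi D) := by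
  ext i j
  rw [Matrix.transpose_apply, Matrix.neg_apply]
  simp only [Psi, Matrix.of_apply]
  by_cases h : i = D.τ j
  · have h1 : j = D.τ i := by rw [h, D.τ_τ]
    rw [if_pos h, if_pos h1, h, (D.odd_τ j (ho j)).2, neg_neg]
  · have h1 : j ≠ D.τ i := fun h2 => h (by rw [h2, D.τ_τ])
    rw [if_neg h, if_neg h1, neg_zero]

end Weleven

/-- Row W11. -/
theorem w11 : W11Statement := by
  intro w1x w2 r4 r11 p2 p3 g4 g4b I Λ _ _ _ D At Bt l Γ β _ lb b hE hF hiso L hK u hu hu0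
  rcases hK with hK | hcard
  · exact w5x w1x w2 r4 p2 p3 g4 g4b D At Bt l Γ lb b hE hF hiso L hK u hu hu0
  obtain ⟨ι, _, len, t, s, x, k, h, G, hC, hwd⟩ := w1x D At Bt l Γ lb b hE hF (max L 2)
  have hL := h.lvl
  obtain ⟨a, ha, har, haS⟩ := p3 D s l hE.typ_eq hE.odd hE.tau hE.ratio hL.fix
  have com := g4b D At Bt l Γ lb b hE _ (le_max_right L 2) len t s x k h
  obtain ⟨hxi, hx1, hx2⟩ := alg1.G_inv D x hL.grp
  have hCa : Calc D.τ a (fun ε v => G ε v ∧ Even v.length) :=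
    Weleven.calc_even (Wfx.calc_congr (fun i j => (ha i j).1) hC)
  have hwe : ∀ i w, s i w ≠ 0 → ∃ ε : ℤˣ, (G ε (List.ofFn w) ∧ Even (List.ofFn w).length) ∧
      ∏ j, k (w j) = (((ε : ℤ) : ℝ) : ℂ) := by
    intro i w hw
    obtain ⟨ε, h1, h2⟩ := hwd i w hw
    refine ⟨ε, ⟨h1, ?_⟩, h2⟩
    rw [List.length_ofFn]
    by_contra hev
    apply hw
    have h1 : t i = 0 :=
      Six.odd_zero hE.odd (Nat.not_even_iff_odd.1 hev) (hE.sys.even _ _ (hL.mem i))
    have h2 : gT x (s i) = t i := congrFun hL.eq i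
    have h3 : s i = gT x⁻¹ (t i) := by rw [← h2, ← alg1.gT_mul, hx2, alg1.gT_one]
    rw [h3, h1, Six.gT_zero]
    rfl
  -- stable subspaces
  have hst : ∀ U : Submodule ℂ (I → ℂ), (∀ A ∈ stab D s, ∀ v ∈ U, A.mulVec v ∈ U) →
      (∀ e ∈ {e | ∃ z, At 2 z ∧ e = opM D z}, ∀ v ∈ U, e.mulVec v ∈ U) →
      StabU D At Γ (U.map (Matrix.toLin' x)) := by
    intro U h1 h2
    exact Hsix.stabU_map hx1 (fun z hz => (com z hz).2.2) (fun z hz => h2 _ ⟨z, hz, rfl⟩)
      (g4 D s (Hsix.conjS Γ x) hL.min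
        (Hsix.conjS_fix hL.grp hL.eq hE.grp hE.gfix hL.mem) U h1)
  have hinj : Function.Injective (Matrix.toLin' x) := by
    intro v w hvw
    have h1 := congrArg (Matrix.toLin' x⁻¹) hvw
    rwa [← LinearMap.comp_apply, ← LinearMap.comp_apply, ← Matrix.toLin'_mul, hx2,
      Matrix.toLin'_one, LinearMap.id_apply, LinearMap.id_apply] at h1
  have hbot : ∀ U : Submodule ℂ (I → ℂ), U.map (Matrix.toLin' x) = ⊥ → U = ⊥ := by
    intro U h1
    rw [eq_bot_iff]
    intro v hv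
    have h2 : Matrix.toLin' x v ∈ U.map (Matrix.toLin' x) := ⟨v, hv, rfl⟩
    rw [h1, Submodule.mem_bot] at h2
    rw [Submodule.mem_bot]
    exact hinj (by rw [h2, map_zero])
  have hr := r11 (Six.stabS alg1 D s) {e | ∃ z, At 2 z ∧ e = opM D z} (Psi D)
    (fun A hA B hB => Six.stab_br alg1 hA hB) (p2 D s hL.min)
    (by
      rintro _ ⟨z, hz, rfl⟩ A hA
      exact (com z hz).1 A hA)
    (fun A hA => hA.1.2) Hsix.psi_unit (Weleven.psi_transpose hE.odd) a har haS k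
    (fun i j hij => h.blk i j ((ha i j).1 hij)) D.τ (fun ε v => G ε v ∧ Even v.length) D.τ_τ
    (Wfx.a_tau haS.1) hCa (fun ε v hv => hv.2)
    (w2 D s a (fun ε v => G ε v ∧ Even v.length) hCa fun i w hw => by
      obtain ⟨ε, hε, -⟩ := hwe i w hw
      exact ⟨ε, hε⟩)
    (by
      intro U h1 h2 h3
      have h4 := hiso (U.map (Matrix.toLin' x)) (hst U h1 h2) (by
        rintro _ ⟨v, hv, rfl⟩ _ ⟨w, hw, rfl⟩
        rw [Matrix.toLin'_apply, Matrix.toLin'_apply, Hsix.psi_map hL.grp]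
        exact h3 v hv w hw)
      exact hbot U h4)
    hcard
  have hLm : L ≤ max L 2 := le_max_left L 2
  refine Six.pos_of alg1 hE.sys (hE.nd L) hL.grp
    (T := {v : Ten I L | ∃ i, ∃ h : len i = L, v = h ▸ t i}) ?_ (hL.span L hLm) ?_ u hu hu0
  · rintro _ ⟨i, rfl, rfl⟩
    exact hL.mem i
  · rintro _ ⟨i, rfl, rfl⟩
    have h1 : gT x (s i) = t i := congrFun hL.eq i
    have h0 : gT x⁻¹ (t i) = s i := by rw [← h1, ← alg1.gT_mul, hx2, alg1.gT_one]
    have h3 : gT (Matrix.diagonal k) (s i) = s i :=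
      hr (len i) (s i) (fun A hA => congrFun hA.2 i) (hwe i)
    have h2 : jT D (s i) = s i := (congrFun hL.key i).symm.trans h3
    change gT x (jT D (gT x⁻¹ (t i))) = t i
    rw [h0, h2, h1]

end Pool.Agent.Lib.MP_361a6f_ag.FL.E
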